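import Pool.Agent.LibZQ38.Asm2
import Pool.Agent.LibAD67.Defs

/-!
# Variations of mixed Hodge structure over open subsets of `ℂ^d`: pointwise functions
(MP_eeb1a4_ag, all dimensions)
-/

open Matrix Complex Filter Topology
open UpperHalfPlane hiding I
open MW38 (Fl Tri blk dg)
open SP38 (Hc)
open scoped ContDiff

namespace AD19

open ZQ38

variable {ι : Type} [Fintype ι] [DecidableEq ι] {E : Type} [NormedAddCommGroup E]
  [NormedSpace ℂ E]

/-- entrywise real analytic on `Ω` -/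
def AnE {α β : Type} (Ω : Set E) (A : E → Matrix α β ℂ) : Prop :=
  ∀ i j, AnalyticOnNhd ℝ (fun v => A v i j) Ω

/-- a variation over an open subset of a complex vector space -/
structure VE (wt p : ι → ℤ) (Q : Matrix ι ι ℚ) (Ω : Set E) (Φ : E → Matrix ι ι ℂ) : Prop where
  mhs : ∀ v ∈ Ω, MW38.MHS wt p (Q.map (algebraMap ℚ ℝ)) (Φ v)
  an : ∀ i j, AnalyticOnNhd ℂ (fun v => Φ v i j) Ω
  tr : ∀ v ∈ Ω, ∀ (j : ι) (ξ : E), (fun i => fderiv ℂ (fun v => Φ v i j) v ξ) ∈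
    Fl p (Φ v) (p j - 1)

/-- The Lie algebra of the generic Mumford-Tate group of a germ: the span of the Lie algebras of the
Mumford-Tate groups of all points in a small neighbourhood. -/
noncomputable def gLie {E : Type} [TopologicalSpace E] (wt p : ι → ℤ) (Φ : E → Matrix ι ι ℂ)
    (v₀ : E) : Submodule ℚ (Matrix ι ι ℚ) := ⨅ U ∈ 𝓝 v₀, ⨆ v ∈ U, mtLie wt p (Φ v)

/-- parameters of the construction: an involution `s` which exchanges the types, a bound `K` for the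
Hodge numbers, the length `J` of the weight filtration -/
structure Par (wt p : ι → ℤ) where
  s : Equiv.Perm ι
  K : ℕ
  J : ℕ
  hs : ∀ j, wt (s j) = wt j ∧ p (s j) = wt j - p j
  hK : ∀ j, |p j| ≤ K
  hJ : ∀ i j, wt i - wt j < J

variable {wt p : ι → ℤ} {Q : Matrix ι ι ℚ} {m n : Submodule ℚ (Matrix ι ι ℚ)}

/-- Deligne's `h` -/
noncomputable def hh (c : Par wt p) (A : Matrix ι ι ℂ) : Matrix ι ι ℂ :=
  HH wt c.K A (PPg wt p c.s A) c.J

/-- multiplication by `a` on the part `(a, b)` of the graded pieces -/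
noncomputable def pg (c : Par wt p) (A : Matrix ι ι ℂ) : Matrix ι ι ℂ := PG c.K (PPg wt p c.s A)

/-- the data attached to a maximal ideal `n` of `m`, and a lift of the weight grading -/
structure Pk (wt : ι → ℤ) (Q : Matrix ι ι ℚ) (m n : Submodule ℚ (Matrix ι ι ℚ)) where
  d : Dat wt Q m n
  t₀ : Matrix ι ι ℚ
  mem : t₀ ∈ m
  dgt : dgR wt t₀ = Matrix.diagonal (fun i => (wt i : ℚ))

/-- the form on `𝔲 / 𝔫` -/
noncomputable def Pk.QW (P : Pk wt Q m n) : Matrix (Fin P.d.r) (Fin P.d.r) ℝ :=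
  (QWf wt Q P.d.j).map (algebraMap ℚ ℝ)

/-- the grading operator of `𝔲 / 𝔫` -/
noncomputable def Dp (c : Par wt p) (P : Pk wt Q m n) (A : Matrix ι ι ℂ) :
    Matrix (Fin P.d.r) (Fin P.d.r) ℂ :=
  rhoC P.d.rho (oP c.K (PPg wt p c.s A) (hh c A))

/-- the extension class -/
noncomputable def ep (c : Par wt p) (P : Pk wt Q m n) (A : Matrix ι ι ℂ) : Fin P.d.r → ℂ :=
  lamC P.d.lam (hh c A * Dwt wt * (hh c A)⁻¹ - P.t₀.map (algebraMap ℚ ℂ))

/-- the norm of the real extension class modulo `n` -/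
noncomputable def Nf (c : Par wt p) (P : Pk wt Q m n) (A : Matrix ι ι ℂ) : ℝ :=
  (ZW67.NM P.d.w (2 * c.K) P.QW (fun _ => Dp c P A) (fun _ => ep c P A) 0).re

/-- the auxiliary form along a disc -/
noncomputable def Tf (c : Par wt p) (P : Pk wt Q m n) (Ψ : ℂ → Matrix ι ι ℂ) (z : ℂ) : ℂ :=
  ZW67.TM P.d.w (2 * c.K) P.QW (fun z => Dp c P (Ψ z)) (fun z => ep c P (Ψ z)) z

/-- the energy density of `𝔲 / 𝔫` along a disc -/
noncomputable def Ef (c : Par wt p) (P : Pk wt Q m n) (Ψ : ℂ → Matrix ι ι ℂ) (z : ℂ) : ℝ :=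
  SP38.hs (SP38.metr P.d.w (2 * c.K) P.QW (fun a => ZW67.LP (2 * c.K) (Dp c P (Ψ z)) a))
    (SP38.DZ (fun z => Dp c P (Ψ z)) z)

/-- the energy density of the graded pieces along a disc -/
noncomputable def EG (c : Par wt p) (Q : Matrix ι ι ℚ) (Ψ : ℂ → Matrix ι ι ℂ) (z : ℂ) : ℝ :=
  (Matrix.trace ((ZW67.MM wt c.K (Q.map (algebraMap ℚ ℝ)) (PPg wt p c.s (Ψ z)))⁻¹ *
    (SP38.DZ (fun z => pg c (Ψ z)) z)ᴴ *
    ZW67.MM wt c.K (Q.map (algebraMap ℚ ℝ)) (PPg wt p c.s (Ψ z)) *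
    SP38.DZ (fun z => pg c (Ψ z)) z)).re

/-- the condition on the types -/
def TyOK (wt p : ι → ℤ) (m n : Submodule ℚ (Matrix ι ι ℚ)) (A : Matrix ι ι ℂ) : Prop :=
  ∀ t : ℤ × ℤ, (t = (-1, -1) ∨ t = (-1, 0) ∨ t = (0, -1)) →
    hab wt p A (m ⊓ Low ℚ wt) t = hab wt p A n t

end AD19
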