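import Pool.Agent.LibAD19.Def

/-!
Row G5 (helper25, block G): the Cayley map and the transport from the upper half plane to a disc.
-/

open Matrix Complex Filter Topology
open UpperHalfPlane hiding I
open SP38 (Hc)
open scoped ContDiff

namespace AD19

open ZQ38

variable {ι : Type} [Fintype ι] [DecidableEq ι] {wt p : ι → ℤ} {Q : Matrix ι ι ℚ}

/-- the Cayley map `ℍ → ball t ρ` -/
noncomputable def cay (t : ℂ) (ρ : ℝ) (τ : ℂ) : ℂ := t + ρ * ((τ - I) / (τ + I))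

/-- its inverse -/
noncomputable def cai (t : ℂ) (ρ : ℝ) (z : ℂ) : ℂ := I * ((1 + (z - t) / ρ) / (1 - (z - t) / ρ))

theorem G5_ne {z : ℂ} (hz : 0 < z.im) : z + I ≠ 0 := by
  intro h
  have := congrArg Complex.im h
  simp at this
  linarith

theorem G5_mem {t : ℂ} {ρ : ℝ} (hρ : 0 < ρ) {z : ℂ} (hz : 0 < z.im) :
    cay t ρ z ∈ Metric.ball t ρ := by
  have h0 := G5_ne hz
  have h1 : 0 < ‖z + I‖ := norm_pos_iff.2 h0
  rw [Metric.mem_ball, dist_eq_norm, cay, add_sub_cancel_left, norm_mul, norm_div,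
    Complex.norm_real, Real.norm_eq_abs, abs_of_pos hρ]
  have h2 : ‖z - I‖ < ‖z + I‖ := by
    rw [← sq_lt_sq₀ (norm_nonneg _) (norm_nonneg _), ← Complex.normSq_eq_norm_sq,
      ← Complex.normSq_eq_norm_sq, Complex.normSq_apply, Complex.normSq_apply]
    simp
    nlinarith
  have h3 : ‖z - I‖ / ‖z + I‖ < 1 := (div_lt_one h1).2 h2
  nlinarith

theorem G5_norm {t : ℂ} {ρ : ℝ} (hρ : 0 < ρ) {z : ℂ} (hz : z ∈ Metric.ball t ρ) :
    ‖(z - t) / ρ‖ < 1 := by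
  rw [Metric.mem_ball, dist_eq_norm] at hz
  rw [norm_div, Complex.norm_real, Real.norm_eq_abs, abs_of_pos hρ]
  exact (div_lt_one hρ).2 hz

theorem G5_ne' {t : ℂ} {ρ : ℝ} (hρ : 0 < ρ) {z : ℂ} (hz : z ∈ Metric.ball t ρ) :
    1 - (z - t) / ρ ≠ 0 := by
  have h := G5_norm hρ hz
  intro h1
  rw [← sub_eq_zero.1 h1, norm_one] at h
  exact lt_irrefl _ h

theorem G5_im {t : ℂ} {ρ : ℝ} (hρ : 0 < ρ) {z : ℂ} (hz : z ∈ Metric.ball t ρ) :
    0 < (cai t ρ z).im := by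
  have h0 := G5_ne' hρ hz
  have h := G5_norm hρ hz
  have h3' : cai t ρ z = I * ((1 + (z - t) / ρ) / (1 - (z - t) / ρ)) := rfl
  generalize (z - t) / ρ = u at h0 h h3'
  have h1 : 0 < Complex.normSq (1 - u) := Complex.normSq_pos.2 h0
  have h2 : ‖u‖ ^ 2 < 1 := by
    have := norm_nonneg u
    nlinarith
  rw [← Complex.normSq_eq_norm_sq, Complex.normSq_apply] at h2
  have h3 : (cai t ρ z).im = (1 - (u.re * u.re + u.im * u.im)) / Complex.normSq (1 - u) := by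
    rw [h3', Complex.I_mul_im, Complex.div_re, ← add_div]
    congr 1
    simp
    ring
  rw [h3]
  exact div_pos (by linarith) h1

theorem G5_cay_cai {t : ℂ} {ρ : ℝ} (hρ : 0 < ρ) {z : ℂ} (hz : z ∈ Metric.ball t ρ) :
    cay t ρ (cai t ρ z) = z := by
  have hρ' : (ρ : ℂ) ≠ 0 := by exact_mod_cast hρ.ne'
  have h0 := G5_ne' hρ hz
  have h1 := G5_ne (G5_im hρ hz)
  rw [cay]
  have h2 : (cai t ρ z - I) / (cai t ρ z + I) = (z - t) / ρ := by
    rw [div_eq_iff h1, cai]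
    have h3 : (ρ : ℂ) - (z - t) ≠ 0 := by
      intro h4
      apply h0
      rw [← sub_eq_zero.1 h4, div_self hρ', sub_self]
    field_simp
    ring
  rw [h2]
  field_simp
  ring

theorem G5_cai_cay {t : ℂ} {ρ : ℝ} (hρ : 0 < ρ) {z : ℂ} (hz : 0 < z.im) :
    cai t ρ (cay t ρ z) = z := by
  have h0 := G5_ne hz
  have hρ' : (ρ : ℂ) ≠ 0 := by exact_mod_cast hρ.ne'
  rw [cai, cay, add_sub_cancel_left, mul_div_cancel_left₀ _ hρ']
  have h3 : 1 - (z - I) / (z + I) = 2 * I / (z + I) := by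
    field_simp
    ring
  have h4 : 1 + (z - I) / (z + I) = 2 * z / (z + I) := by
    field_simp
    ring
  rw [h3, h4]
  have h5 : (2 : ℂ) * I ≠ 0 := by simp
  field_simp

theorem G5_cay_diff {t : ℂ} {ρ : ℝ} {z : ℂ} (hz : 0 < z.im) :
    DifferentiableAt ℂ (cay t ρ) z := by
  have h0 := G5_ne hz
  have h1 : DifferentiableAt ℂ (fun z : ℂ => z - I) z := by fun_prop
  have h2 : DifferentiableAt ℂ (fun z : ℂ => z + I) z := by fun_prop
  exact ((h1.div h2 h0).const_mul (ρ : ℂ)).const_add t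

theorem G5_cai_diff {t : ℂ} {ρ : ℝ} (hρ : 0 < ρ) {z : ℂ} (hz : z ∈ Metric.ball t ρ) :
    DifferentiableAt ℂ (cai t ρ) z := by
  have h0 := G5_ne' hρ hz
  have h1 : DifferentiableAt ℂ (fun z : ℂ => 1 + (z - t) / ρ) z := by fun_prop
  have h2 : DifferentiableAt ℂ (fun z : ℂ => 1 - (z - t) / ρ) z := by fun_prop
  exact (h1.div h2 h0).const_mul I

theorem cay_facts (t : ℂ) {ρ : ℝ} (hρ : 0 < ρ) :
    (∀ τ ∈ Hc 0, cay t ρ τ ∈ Metric.ball t ρ ∧ cai t ρ (cay t ρ τ) = τ) ∧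
    (∀ z ∈ Metric.ball t ρ, cai t ρ z ∈ Hc 0 ∧ cay t ρ (cai t ρ z) = z) ∧
    DifferentiableOn ℂ (cay t ρ) (Hc 0) ∧ DifferentiableOn ℂ (cai t ρ) (Metric.ball t ρ) :=
  ⟨fun _ h => ⟨G5_mem hρ h, G5_cai_cay hρ h⟩, fun _ h => ⟨G5_im hρ h, G5_cay_cai hρ h⟩,
    fun _ h => (G5_cay_diff h).differentiableWithinAt,
    fun _ h => (G5_cai_diff hρ h).differentiableWithinAt⟩

/-- pull back of a variation along a holomorphic disc -/
theorem VE.comp {E : Type} [NormedAddCommGroup E] [NormedSpace ℂ E] {Ω : Set E} {D : Set ℂ}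
    {Φ : E → Matrix ι ι ℂ} (hv : VE wt p Q Ω Φ) (hΩ : IsOpen Ω) {b : ℂ → E}
    (hb : AnalyticOnNhd ℂ b D) (hm : ∀ z ∈ D, b z ∈ Ω) : VE wt p Q D (fun z => Φ (b z)) where
  mhs z hz := hv.mhs _ (hm z hz)
  an i j z hz := (hv.an i j _ (hm z hz)).comp (hb z hz)
  tr z hz j ξ := by
    have _ := hΩ
    have e : (fun i => fderiv ℂ (fun z => Φ (b z) i j) z ξ) =
        fun i => fderiv ℂ (fun v => Φ v i j) (b z) (fderiv ℂ b z ξ) := by
      funext i
      have h1 := fderiv_comp z (g := fun v => Φ v i j) (f := b)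
        (hv.an i j _ (hm z hz)).differentiableAt (hb z hz).differentiableAt
      have h2 : fderiv ℂ (fun z => Φ (b z) i j) z = (fderiv ℂ (fun v => Φ v i j) (b z)).comp
        (fderiv ℂ b z) := h1
      rw [h2]
      rfl
    rw [e]
    exact hv.tr _ (hm z hz) j _

theorem VE.pull {t : ℂ} {ρ : ℝ} (hρ : 0 < ρ) {Ψ : ℂ → Matrix ι ι ℂ}
    (hv : VE wt p Q (Metric.ball t ρ) Ψ) :
    MW38.VMHS wt p (Q.map (algebraMap ℚ ℝ)) (fun τ => Ψ (cay t ρ τ)) where
  mhs z hz := hv.mhs _ (G5_mem hρ hz)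
  hol i j z hz := by
    refine DifferentiableAt.differentiableWithinAt ?_
    exact DifferentiableAt.comp z (g := fun t => Ψ t i j)
      (hv.an i j _ (G5_mem hρ hz)).differentiableAt (G5_cay_diff hz)
  tr z hz j := by
    have e : (fun i => deriv (fun z => Ψ (cay t ρ z) i j) z) =
        fun i => fderiv ℂ (fun v => Ψ v i j) (cay t ρ z) (deriv (cay t ρ) z) := by
      funext i
      exact fderiv_comp_deriv z (l := fun v => Ψ v i j)
        (hv.an i j _ (G5_mem hρ hz)).differentiableAt (G5_cay_diff hz)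
    rw [e]
    exact hv.tr _ (G5_mem hρ hz) j _

open SP38 US38 in
theorem ExtE_comp {r : ℕ} {w : ℤ} {K : ℕ} {Q : Matrix (Fin r) (Fin r) ℝ} {Ω Ω' : Set ℂ}
    {P : ℂ → ℤ → Matrix (Fin r) (Fin r) ℂ} {θ : ℂ → Matrix (Fin r) (Fin r) ℂ}
    {e : ℂ → Fin r → ℂ} {φ : ℂ → ℂ} (h : ZW67.ExtE w K Q Ω P θ e) (hΩ : IsOpen Ω)
    (hΩ' : IsOpen Ω') (hφ : DifferentiableOn ℂ φ Ω') (hm : ∀ z ∈ Ω', φ z ∈ Ω) :
    ZW67.ExtE w K Q Ω' (fun z => P (φ z)) (fun z => deriv φ z • θ (φ z)) (fun z => e (φ z)) where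
  pv := ZW67.PV_comp h.pv hΩ hΩ' hφ hm
  sme i := SmS.compS hΩ' (h.sme i) hφ hm
  d0 z hz a ha := by
    have hd : DifferentiableAt ℂ φ z := hφ.differentiableAt (hΩ'.mem_nhds hz)
    have h1 : DVb (fun z => e (φ z)) z = (starRingEnd ℂ) (deriv φ z) • DVb e (φ z) := by
      funext i
      rw [Pi.smul_apply, smul_eq_mul, mul_comm]
      exact dzb_comp (f := fun z => e z i) ((h.sme i).differentiableAt hΩ (hm z hz)) hd
    rw [h1, Matrix.mulVec_smul, h.d0 _ (hm z hz) a ha, smul_zero]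
  d1 z hz a ha := by
    have hd : DifferentiableAt ℂ φ z := hφ.differentiableAt (hΩ'.mem_nhds hz)
    have h1 : DV (fun z => e (φ z)) z = deriv φ z • DV e (φ z) := by
      funext i
      rw [Pi.smul_apply, smul_eq_mul, mul_comm]
      exact dz_comp (f := fun z => e z i) ((h.sme i).differentiableAt hΩ (hm z hz)) hd
    rw [h1, Matrix.mulVec_smul, h.d1 _ (hm z hz) a ha, smul_zero]

end AD19
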