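import Pool.Agent.LibAG25.E2
import Pool.Agent.LibAD19.G5

/-!
Row G1 (helper25, block G): very general points, the generic Lie algebra.
-/

open Matrix Complex Filter Topology
open UpperHalfPlane hiding I
open SP38 (Hc)
open scoped ContDiff

set_option linter.unusedSectionVars false

namespace AD19

open ZQ38

variable {ι : Type} [Fintype ι] [DecidableEq ι] {E : Type} [NormedAddCommGroup E]
  [NormedSpace ℂ E] {wt p : ι → ℤ} {Q : Matrix ι ι ℚ} {m n : Submodule ℚ (Matrix ι ι ℚ)}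
  {Ω : Set E} {Φ : E → Matrix ι ι ℂ}

theorem VE.anG (hv : VE wt p Q Ω Φ) : AG25.AnE Ω Φ := fun i j z hz =>
  (hv.an i j z hz).restrictScalars

/-- the projectors and Deligne's splitting are real analytic -/
theorem VE.opE (c : Par wt p) (hv : VE wt p Q Ω Φ) :
    AG25.OpE wt p c.K Φ (fun v => PPg wt p c.s (Φ v)) (fun v => hh c (Φ v)) Ω where
  gr z hz := exists_GrP (hv.mhs z hz) c.hs c.hK
  del z hz := HH_delH (exists_GrP (hv.mhs z hz) c.hs c.hK) c.hJ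
  anP a := AG25.AnE.ppg hv.anG hv.mhs c.hs a
  anh := AG25.AnE.hhP hv.anG hv.mhs c.hs c.K c.J

theorem gLie_le {v₀ : E} {U : Set E} (hU : U ∈ 𝓝 v₀) : gLie wt p Φ v₀ ≤ AG25.genE wt p Φ U :=
  iInf₂_le (f := fun U (_ : U ∈ 𝓝 v₀) => ⨆ v ∈ U, mtLie wt p (Φ v)) U hU

theorem gLie_eq_genE [CompleteSpace E] (c : Par wt p) (hΩ : IsOpen Ω) (hc : IsPreconnected Ω)
    (hv : VE wt p Q Ω Φ) {v₀ : E} (h₀ : v₀ ∈ Ω) : gLie wt p Φ v₀ = AG25.genE wt p Φ Ω := by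
  refine le_antisymm (gLie_le (hΩ.mem_nhds h₀)) (le_iInf₂ fun U hU => ?_)
  obtain ⟨V, hVU, hV, hv₀⟩ := mem_nhds_iff.1 (Filter.inter_mem hU (hΩ.mem_nhds h₀))
  rw [← (hv.opE c).genE_eq hΩ hc hV (hVU.trans Set.inter_subset_right) ⟨v₀, hv₀⟩]
  exact AG25.genE_mono (hVU.trans Set.inter_subset_left)

theorem gLie_facts [CompleteSpace E] (c : Par wt p) (hΩ : IsOpen Ω) (hc : IsPreconnected Ω)
    (hv : VE wt p Q Ω Φ) {v₀ : E} (h₀ : v₀ ∈ Ω) :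
    (∀ v ∈ Ω, mtLie wt p (Φ v) ≤ gLie wt p Φ v₀) ∧
    (∀ v ∈ Ω, gLie wt p Φ v = gLie wt p Φ v₀) ∧
    (∀ᶠ v in residual E, v ∈ Ω → mtLie wt p (Φ v) = gLie wt p Φ v₀) ∧
    IsLie (gLie wt p Φ v₀) ∧ (∀ B ∈ gLie wt p Φ v₀, MW38.Tri wt B) := by
  have hO := hv.opE c
  rw [gLie_eq_genE c hΩ hc hv h₀]
  exact ⟨fun v hv => AG25.mtLie_le_genE hv, fun v hv' => gLie_eq_genE c hΩ hc hv hv',
    hO.resid hΩ hc, (hO.isLie hΩ hc ⟨v₀, h₀⟩).1, (hO.isLie hΩ hc ⟨v₀, h₀⟩).2⟩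

/-- a disc through `v₀` and a very general point -/
theorem gLie_disc [CompleteSpace E] (c : Par wt p) {v₀ : E} {r : ℝ} (hr : 0 < r)
    (hv : VE wt p Q (Metric.ball v₀ r) Φ) :
    ∃ ξ : E, (∀ z ∈ Metric.ball (0 : ℂ) 2, v₀ + z • ξ ∈ Metric.ball v₀ r) ∧
      VE wt p Q (Metric.ball (0 : ℂ) 2) (fun z => Φ (v₀ + z • ξ)) ∧
      genLie wt p (fun τ => Φ (v₀ + cay 0 2 τ • ξ)) = gLie wt p Φ v₀ := by
  have hΩ : IsOpen (Metric.ball v₀ r) := Metric.isOpen_ball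
  have hc : IsPreconnected (Metric.ball v₀ r) := (convex_ball v₀ r).isPreconnected
  have h₀ : v₀ ∈ Metric.ball v₀ r := Metric.mem_ball_self hr
  obtain ⟨h1, -, -, -, -⟩ := gLie_facts c hΩ hc hv h₀
  obtain ⟨v₁, hv₁, hv₁'⟩ := (hv.opE c).exists_gen hΩ hc (V := Metric.ball v₀ (r / 2))
    Metric.isOpen_ball (Metric.ball_subset_ball (by linarith)) ⟨v₀, Metric.mem_ball_self (by linarith)⟩
  rw [← gLie_eq_genE c hΩ hc hv h₀] at hv₁'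
  rw [Metric.mem_ball, dist_eq_norm] at hv₁
  have hm : ∀ z ∈ Metric.ball (0 : ℂ) 2, v₀ + z • (v₁ - v₀) ∈ Metric.ball v₀ r := by
    intro z hz
    rw [Metric.mem_ball, dist_zero_right] at hz
    rw [Metric.mem_ball, dist_eq_norm, add_sub_cancel_left, norm_smul]
    have := norm_nonneg z
    have := norm_nonneg (v₁ - v₀)
    nlinarith
  refine ⟨v₁ - v₀, hm, hv.comp hΩ ?_ hm, le_antisymm ?_ ?_⟩
  · intro z _
    exact analyticAt_const.add (analyticAt_id.smul analyticAt_const)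
  · refine iSup_le fun τ => h1 _ (hm _ (G5_mem (by norm_num) τ.2))
  · have h3 : (1 : ℂ) ∈ Metric.ball (0 : ℂ) 2 := by
      rw [Metric.mem_ball, dist_zero_right, norm_one]
      norm_num
    have h4 : 0 < (cai 0 2 1).im := G5_im (by norm_num) h3
    have h5 : cay 0 2 (cai 0 2 1) = 1 := G5_cay_cai (by norm_num) h3
    rw [← hv₁']
    have h6 := le_iSup (fun τ : ℍ => mtLie wt p (Φ (v₀ + cay 0 2 (τ : ℂ) • (v₁ - v₀))))
      ⟨cai 0 2 1, h4⟩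
    refine le_trans (le_of_eq ?_) h6
    show mtLie wt p (Φ v₁) = mtLie wt p (Φ (v₀ + cay 0 2 (cai 0 2 1) • (v₁ - v₀)))
    rw [h5, one_smul, add_sub_cancel]

theorem exists_Pk [CompleteSpace E] (c : Par wt p) {v₀ : E} {r : ℝ} (hr : 0 < r)
    (hv : VE wt p Q (Metric.ball v₀ r) Φ)
    (hn : MaxSt (gLie wt p Φ v₀) (gLie wt p Φ v₀ ⊓ Low ℚ wt) n) :
    Nonempty (Pk wt Q (gLie wt p Φ v₀) n) := by
  obtain ⟨ξ, -, h2, h3⟩ := gLie_disc c hr hv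
  have hV := VE.pull (by norm_num : (0 : ℝ) < 2) h2
  have hP : ∀ z ∈ Hc 0, GrP wt p c.K (Φ (v₀ + cay 0 2 z • ξ))
      (PPg wt p c.s (Φ (v₀ + cay 0 2 z • ξ))) := fun z hz => exists_GrP (hV.mhs z hz) c.hs c.hK
  have hPa : ∀ a, An (Hc 0) (fun z => PPg wt p c.s (Φ (v₀ + cay 0 2 z • ξ)) a) :=
    fun a => PPg_an hV c.hs a
  obtain ⟨h, hha, hh⟩ := vmhs_h hV c.hs c.hK
  obtain ⟨t₀, ht₀, ht₀'⟩ := C8_t0 hP hh hPa hha
  rw [← h3] at hn ⊢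
  obtain ⟨d⟩ := exists_dat hV c.hs c.hK hh hha (asm_maxI.1 hn)
  exact ⟨⟨d, t₀, ht₀, ht₀'⟩⟩

theorem Fl_mulL (G A : Matrix ι ι ℂ) (a : ℤ) :
    MW38.Fl p (G * A) a = (MW38.Fl p A a).map (Matrix.mulVecLin G) := by
  unfold MW38.Fl
  rw [Submodule.map_span]
  congr 1
  ext v
  constructor
  · rintro ⟨j, hj, rfl⟩
    refine ⟨fun i => A i j, ⟨j, hj, rfl⟩, ?_⟩
    funext i
    rfl
  · rintro ⟨u, ⟨j, hj, rfl⟩, rfl⟩
    refine ⟨j, hj, ?_⟩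
    funext i
    rfl

theorem map_cjg_eq {γ : Matrix ι ι ℚ} (hγ : IsUnit γ) (L : Submodule ℚ (Matrix ι ι ℚ)) :
    L.map (ZL19.cjg γ γ⁻¹) = L.comap (ZL19.cjg γ⁻¹ γ) := by
  obtain ⟨h1, h2⟩ := C8b_inv hγ
  ext A
  constructor
  · rintro ⟨B, hB, rfl⟩
    show γ⁻¹ * (γ * B * γ⁻¹) * γ ∈ L
    rw [← mul_assoc, ← mul_assoc, h2, one_mul, mul_assoc, h2, mul_one]
    exact hB
  · intro hA
    refine ⟨γ⁻¹ * A * γ, hA, ?_⟩
    show γ * (γ⁻¹ * A * γ) * γ⁻¹ = A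
    rw [← mul_assoc, ← mul_assoc, h1, one_mul, mul_assoc, h1, mul_one]

/-- the generic Lie algebra of a translate -/
theorem gLie_cjg {γ : Matrix ι ι ℚ} (hγ : IsUnit γ) (hγt : MW38.Tri wt γ) (v₀ : E) :
    gLie wt p (fun v => γ.map (algebraMap ℚ ℂ) * Φ v) v₀ =
      (gLie wt p Φ v₀).map (ZL19.cjg γ γ⁻¹) := by
  have h1 : ∀ v, mtLie wt p (γ.map (algebraMap ℚ ℂ) * Φ v) =
      (mtLie wt p (Φ v)).map (ZL19.cjg γ γ⁻¹) := fun v =>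
    AG25.mtLie_map hγ hγt fun a => Fl_mulL _ _ a
  rw [gLie, gLie, map_cjg_eq hγ]
  simp only [Submodule.comap_iInf]
  refine iInf_congr fun U => iInf_congr fun hU => ?_
  rw [← map_cjg_eq hγ]
  simp only [Submodule.map_iSup, h1]

end AD19
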