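import Pool.Agent.LibAD19.Def

/-!
Row N1: calculus of entrywise real analytic matrix functions on a normed space `E`.

PLAN. As Pool/Agent/LibZQ38/B05a.lean (An.const ... An.inv, An.of_holo), with `ℂ` replaced by `E`
and rectangular matrices: `analyticOnNhd_const`, `.add`, `.sub`, `.mul`, `Finset.analyticOnNhd_sum`,
complex conjugation is a continuous real linear map; determinants: `Matrix.det_apply`; inverse:
`Matrix.inv_def`, adjugate entries are determinants (or copy the proof of B05a). of_holo: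
`AnalyticOnNhd.restrictScalars`-type lemma (`AnalyticAt.restrictScalars`).
-/

open Matrix Complex Filter Topology
open scoped ContDiff

namespace AD19

open ZQ38

variable {E : Type} [NormedAddCommGroup E] [NormedSpace ℂ E] {α β γ : Type} {Ω : Set E}

theorem AnE.const (A : Matrix α β ℂ) : AnE Ω (fun _ => A) :=
  fun _ _ => analyticOnNhd_const

theorem AnE.add {A B : E → Matrix α β ℂ} (hA : AnE Ω A) (hB : AnE Ω B) :
    AnE Ω (fun v => A v + B v) :=
  fun i j => (hA i j).add (hB i j)

theorem AnE.sub {A B : E → Matrix α β ℂ} (hA : AnE Ω A) (hB : AnE Ω B) :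
    AnE Ω (fun v => A v - B v) :=
  fun i j => (hA i j).sub (hB i j)

theorem AnE.mul [Fintype β] {A : E → Matrix α β ℂ} {B : E → Matrix β γ ℂ} (hA : AnE Ω A)
    (hB : AnE Ω B) : AnE Ω (fun v => A v * B v) := by
  intro i j z hz
  simp only [Matrix.mul_apply]
  exact Finset.analyticAt_fun_sum _ fun k _ => (hA i k z hz).mul (hB k j z hz)

theorem AnE.smul (c : ℂ) {A : E → Matrix α β ℂ} (hA : AnE Ω A) : AnE Ω (fun v => c • A v) := by
  intro i j z hz
  simp only [Matrix.smul_apply, smul_eq_mul]
  exact analyticAt_const.mul (hA i j z hz)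

theorem AnE.sum {κ : Type*} (s : Finset κ) {A : κ → E → Matrix α β ℂ}
    (hA : ∀ i ∈ s, AnE Ω (A i)) : AnE Ω (fun v => ∑ i ∈ s, A i v) := by
  intro i j z hz
  simp only [Matrix.sum_apply]
  exact Finset.analyticAt_fun_sum _ fun k hk => hA k hk i j z hz

theorem AnE.conj {A : E → Matrix α β ℂ} (hA : AnE Ω A) :
    AnE Ω (fun v => (A v).map (starRingEnd ℂ)) := by
  intro i j z hz
  have h1 : AnalyticAt ℝ (fun w : ℂ => (starRingEnd ℂ) w) (A z i j) :=
    Complex.conjCLE.toContinuousLinearMap.analyticAt _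
  exact AnalyticAt.comp (g := fun w : ℂ => (starRingEnd ℂ) w) (f := fun z => A z i j) h1
    (hA i j z hz)

theorem AnE.transpose {A : E → Matrix α β ℂ} (hA : AnE Ω A) : AnE Ω (fun v => (A v)ᵀ) :=
  fun i j => hA j i

theorem AnE.det [Fintype α] [DecidableEq α] {A : E → Matrix α α ℂ} (hA : AnE Ω A) :
    AnalyticOnNhd ℝ (fun v => (A v).det) Ω := by
  intro z hz
  simp only [Matrix.det_apply']
  refine Finset.analyticAt_fun_sum _ fun σ _ => analyticAt_const.mul ?_
  exact Finset.analyticAt_fun_prod _ fun i _ => hA (σ i) i z hz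

theorem AnE.inv [Fintype α] [DecidableEq α] {A : E → Matrix α α ℂ} (hA : AnE Ω A)
    (hu : ∀ v ∈ Ω, IsUnit (A v)) : AnE Ω (fun v => (A v)⁻¹) := by
  intro i j
  have e : (fun z => (A z)⁻¹ i j) = fun z => ((A z).det)⁻¹ * (A z).adjugate i j := by
    funext z
    rw [Matrix.inv_def, Matrix.smul_apply, Ring.inverse_eq_inv', smul_eq_mul]
  rw [e]
  refine AnalyticOnNhd.mul (AnalyticOnNhd.inv (AnE.det hA) fun z hz => ?_) ?_
  · exact ((Matrix.isUnit_iff_isUnit_det _).1 (hu z hz)).ne_zero
  · simp only [Matrix.adjugate_apply]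
    refine AnE.det (A := fun z => (A z).updateRow j (Pi.single i 1)) fun k l => ?_
    by_cases hk : k = j
    · subst hk
      simp only [Matrix.updateRow_self]
      exact analyticOnNhd_const
    · simp only [Matrix.updateRow_ne hk]
      exact hA k l

theorem AnE.pow [Fintype α] [DecidableEq α] {A : E → Matrix α α ℂ} (hA : AnE Ω A) (k : ℕ) :
    AnE Ω (fun v => A v ^ k) := by
  induction k with
  | zero =>
    simp only [pow_zero]
    exact AnE.const 1
  | succ k ih =>
    simp only [pow_succ]
    exact ih.mul hA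

theorem AnE.aeval [Fintype α] [DecidableEq α] {A : E → Matrix α α ℂ} (hA : AnE Ω A)
    (q : Polynomial ℂ) : AnE Ω (fun v => Polynomial.aeval (A v) q) := by
  simp only [Polynomial.aeval_eq_sum_range]
  exact AnE.sum _ fun i _ => (hA.pow i).smul (q.coeff i)

theorem AnE.of_holo {A : E → Matrix α β ℂ}
    (h : ∀ i j, AnalyticOnNhd ℂ (fun v => A v i j) Ω) : AnE Ω A :=
  fun i j => (h i j).restrictScalars

/-- a composition with a map which is analytic at one point -/
theorem AnE.comp_at {A : E → Matrix α β ℂ} (hA : AnE Ω A) {b : ℂ → E} {t : ℂ}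
    (hb : AnalyticAt ℂ b t) (ht : b t ∈ Ω) (i : α) (j : β) :
    AnalyticAt ℝ (fun z => A (b z) i j) t :=
  AnalyticAt.comp (g := fun v => A v i j) (f := b) (hA i j (b t) ht) hb.restrictScalars

end AD19
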