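import Pool.Agent.LibAD19.N3

/-!
Row N10: zeros of nonnegative smooth functions are of order two.

PLAN. quad: f ≥ 0 near v₀ and f v₀ = 0, so v₀ is a local minimum and fderiv f v₀ = 0
(IsLocalMin.fderiv_eq_zero). f is C²: `fderiv ℝ f` is C¹ near v₀, hence locally Lipschitz:
‖fderiv f v‖ ≤ C ‖v - v₀‖ on a ball (ContDiffAt.exists_lipschitzOnWith applied to `fderiv ℝ f`), and
the mean value inequality on the segment [v₀, v] (Convex.norm_image_sub_le_of_norm_fderiv_le on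
ball v₀ ‖v - v₀‖-closed ball) gives |f v| ≤ C ‖v - v₀‖². (see Pool/Agent/LibUS38/ZeroM.lean,
zerom_quadratic, for the case of ℂ.)
-/

open Matrix Complex Filter Topology
open scoped ContDiff

namespace AD19

open ZQ38

theorem quad {E : Type} [NormedAddCommGroup E] [NormedSpace ℝ E] {f : E → ℝ} {v₀ : E}
    (hf : ContDiffAt ℝ 2 f v₀) (h0 : f v₀ = 0) (hp : ∀ᶠ v in 𝓝 v₀, 0 ≤ f v) :
    ∃ C : ℝ, ∀ᶠ v in 𝓝 v₀, f v ≤ C * ‖v - v₀‖ ^ 2 := by
  have hlm : IsLocalMin f v₀ := by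
    filter_upwards [hp] with z hz
    rw [h0]
    exact hz
  have hfd0 : fderiv ℝ f v₀ = 0 := hlm.fderiv_eq_zero
  have hd : DifferentiableAt ℝ (fderiv ℝ f) v₀ :=
    (hf.fderiv_right (m := 1) (by norm_num)).differentiableAt (by norm_num)
  obtain ⟨C, hC, hbound⟩ := (hd.hasFDerivAt.isBigO_sub).exists_pos
  rw [Asymptotics.isBigOWith_iff] at hbound
  have hdiff : ∀ᶠ z in 𝓝 v₀, DifferentiableAt ℝ f z := by
    filter_upwards [hf.eventually (by simp)] with z hz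
    exact hz.differentiableAt (by norm_num)
  obtain ⟨δ, hδ, hball⟩ := Metric.eventually_nhds_iff_ball.mp (hbound.and hdiff)
  refine ⟨C, ?_⟩
  filter_upwards [Metric.ball_mem_nhds v₀ hδ] with z hz
  have h1 : ∀ x ∈ Metric.closedBall v₀ ‖z - v₀‖, x ∈ Metric.ball v₀ δ := by
    intro x hx
    rw [Metric.mem_closedBall] at hx
    rw [Metric.mem_ball]
    refine lt_of_le_of_lt hx ?_
    rw [← dist_eq_norm]
    exact hz
  have h2 := Convex.norm_image_sub_le_of_norm_fderiv_le (𝕜 := ℝ) (f := f)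
    (s := Metric.closedBall v₀ ‖z - v₀‖) (C := C * ‖z - v₀‖)
    (fun x hx => (hball x (h1 x hx)).2) (fun x hx => by
      have h3 := (hball x (h1 x hx)).1
      rw [hfd0, sub_zero] at h3
      refine h3.trans (mul_le_mul_of_nonneg_left ?_ hC.le)
      rw [Metric.mem_closedBall, dist_eq_norm] at hx
      exact hx) (convex_closedBall _ _)
    (Metric.mem_closedBall_self (norm_nonneg _))
    (show z ∈ Metric.closedBall v₀ ‖z - v₀‖ by rw [Metric.mem_closedBall, dist_eq_norm])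
  rw [h0, sub_zero] at h2
  calc f z ≤ ‖f z‖ := le_abs_self _
    _ ≤ C * ‖z - v₀‖ * ‖z - v₀‖ := h2
    _ = C * ‖z - v₀‖ ^ 2 := by ring

variable {ι : Type} [Fintype ι] [DecidableEq ι] {E : Type} [NormedAddCommGroup E]
  [NormedSpace ℂ E] {wt p : ι → ℤ} {Q : Matrix ι ι ℚ} {m n : Submodule ℚ (Matrix ι ι ℚ)}
  {Ω : Set E} {Φ : E → Matrix ι ι ℂ} {c : Par wt p}

theorem Nf_quad (hΩ : IsOpen Ω) (hv : VE wt p Q Ω Φ) (hlie : IsLie m)
    (htri : ∀ B ∈ m, MW38.Tri wt B) (hm : ∀ v ∈ Ω, mtLie wt p (Φ v) ≤ m) (P : Pk wt Q m n)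
    {v₀ : E} (h₀ : v₀ ∈ Ω) (h0 : Nf c P (Φ v₀) = 0) :
    ∃ C : ℝ, ∀ᶠ v in 𝓝 v₀, Nf c P (Φ v) ≤ C * ‖v - v₀‖ ^ 2 := by
  refine quad (f := fun v => Nf c P (Φ v)) ((Nf_an hv P v₀ h₀).contDiffAt) h0 ?_
  filter_upwards [hΩ.mem_nhds h₀] with v hvΩ
  exact (Nf_eq (hv.mhs v hvΩ) hlie htri (hm v hvΩ) P).2.1

/-- `Nf` vanishes near one point: it vanishes on the whole connected set; otherwise it is nonzero on
a residual set -/
theorem Nf_ident (hΩ : IsOpen Ω) (hc : IsPreconnected Ω) (hv : VE wt p Q Ω Φ) (P : Pk wt Q m n)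
    {v₀ : E} (h₀ : v₀ ∈ Ω) (h0 : ∀ᶠ v in 𝓝 v₀, Nf c P (Φ v) = 0) :
    ∀ v ∈ Ω, Nf c P (Φ v) = 0 := by
  have _ := hΩ
  intro v hvΩ
  exact (Nf_an hv P).eqOn_zero_of_preconnected_of_eventuallyEq_zero hc h₀ h0 hvΩ

theorem Nf_dense (hΩ : IsOpen Ω) (hc : IsPreconnected Ω) (hv : VE wt p Q Ω Φ) (P : Pk wt Q m n)
    {v₀ : E} (h₀ : v₀ ∈ Ω) (h0 : ¬ ∀ᶠ v in 𝓝 v₀, Nf c P (Φ v) = 0) :
    ∀ᶠ v in residual E, v ∈ Ω → Nf c P (Φ v) ≠ 0 := by
  set Z : Set E := {v | v ∈ Ω ∧ Nf c P (Φ v) = 0} with hZ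
  -- no point of `Ω` has a neighbourhood on which the function vanishes
  have hno : ∀ v₁ ∈ Ω, ¬ ∀ᶠ v in 𝓝 v₁, Nf c P (Φ v) = 0 := by
    intro v₁ hv₁ h
    apply h0
    filter_upwards [hΩ.mem_nhds h₀] with v hvΩ
    exact Nf_ident hΩ hc hv P hv₁ h v hvΩ
  have hcl : closure Z ∩ Ω ⊆ Z := by
    rintro v ⟨hv1, hv2⟩
    refine ⟨hv2, ?_⟩
    have hcont : ContinuousAt (fun v => Nf c P (Φ v)) v := (Nf_an hv P v hv2).continuousAt
    by_contra hne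
    have h1 : ∀ᶠ w in 𝓝 v, Nf c P (Φ w) ≠ 0 := hcont.eventually_ne hne
    obtain ⟨w, hw1, hw2⟩ := (mem_closure_iff_frequently.1 hv1).and_eventually h1 |>.exists
    exact hw2 hw1.2
  have hnd : IsNowhereDense Z := by
    rw [IsNowhereDense, Set.eq_empty_iff_forall_notMem]
    intro v hvi
    obtain ⟨U, hU1, hU2, hU3⟩ := mem_interior.1 hvi
    obtain ⟨w, hw1, hw2⟩ := mem_closure_iff.1 (hU1 hU3) U hU2 hU3
    refine hno w hw2.1 ?_
    filter_upwards [(hU2.inter hΩ).mem_nhds ⟨hw1, hw2.1⟩] with x hx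
    exact (hcl ⟨hU1 hx.1, hx.2⟩).2
  have hme : Zᶜ ∈ residual E := hnd.isMeagre
  filter_upwards [hme] with v hv1 hv2 hv3
  exact hv1 ⟨hv2, hv3⟩

end AD19
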