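import Pool.Agent.LibAD19.N1

/-!
Row N2: Deligne's splitting of a variation over an open subset of `E` is real analytic.

PLAN. PPg: as Pool/Agent/LibZQ38/BPb.lean (BPb_AAg, BPb_PIg, PPg_an) with `AnE` instead of `An`
(AAg_isUnit needs MHS pointwise). hh: as Pool/Agent/LibZQ38/B05b.lean (B05b_dg, B05b_Lm, B05b_Pge,
B05b_Pls, B05b_Dd, B05b_HH), `Φ v` is a unit and block triangular by `(hv.mhs v h).unit`, `.tri`;
`Lm wt (bar Φ) = bar (Lm wt Φ)` is B12c_Lm_bar. hh is unipotent (HH_un with exists_GrP), so a unit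
(Un.isUnit). Dp, ep: entries are finite linear combinations of entries (W1_rho, W1_lam).
-/

open Matrix Complex Filter Topology
open scoped ContDiff

namespace AD19

open ZQ38

variable {ι : Type} [Fintype ι] [DecidableEq ι] {E : Type} [NormedAddCommGroup E]
  [NormedSpace ℂ E] {wt p : ι → ℤ} {Q : Matrix ι ι ℚ} {m n : Submodule ℚ (Matrix ι ι ℚ)}
  {Ω : Set E} {Φ : E → Matrix ι ι ℂ} {c : Par wt p}

theorem N2_dg {A : E → Matrix ι ι ℂ} (hA : AnE Ω A) : AnE Ω (fun v => MW38.dg wt (A v)) := by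
  intro i j
  by_cases h : wt i = wt j
  · have e : (fun v => MW38.dg wt (A v) i j) = fun v => A v i j := by
      funext v
      simp [MW38.dg, h]
    rw [e]
    exact hA i j
  · have e : (fun v => MW38.dg wt (A v) i j) = fun _ => (0 : ℂ) := by
      funext v
      simp [MW38.dg, h]
    rw [e]
    exact analyticOnNhd_const

theorem N2_bar {A : E → Matrix ι ι ℂ} (hA : AnE Ω A) : AnE Ω (fun v => ZQ38.bar (A v)) :=
  hA.conj

theorem N2_Lm {A : E → Matrix ι ι ℂ} (hA : AnE Ω A) (hu : ∀ v ∈ Ω, IsUnit (A v))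
    (ht : ∀ v ∈ Ω, MW38.Tri wt (A v)) : AnE Ω (fun v => Lm wt (A v)) := by
  unfold Lm
  exact hA.mul ((N2_dg hA).inv fun v hv => MW38.dg_isUnit (hu v hv) (ht v hv))

theorem N2_Pge {K : ℕ} {P : E → ℤ → Matrix ι ι ℂ} (hPa : ∀ a, AnE Ω (fun v => P v a)) (a : ℤ) :
    AnE Ω (fun v => Pge K (P v) a) := by
  unfold Pge
  exact AnE.sum _ fun b _ => hPa b

theorem N2_Pls {K : ℕ} {P : E → ℤ → Matrix ι ι ℂ} (hPa : ∀ a, AnE Ω (fun v => P v a)) (a : ℤ) :
    AnE Ω (fun v => Pls K (P v) a) := by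
  unfold Pls
  exact AnE.sum _ fun b _ => hPa b

theorem N2_Dd {K : ℕ} {A : E → Matrix ι ι ℂ} {P : E → ℤ → Matrix ι ι ℂ}
    (hL : AnE Ω (fun v => Lm wt (A v))) (hL' : AnE Ω (fun v => Lm wt (ZQ38.bar (A v))))
    (hPa : ∀ a, AnE Ω (fun v => P v a)) (a k : ℤ) (j : ℕ) :
    AnE Ω (fun v => Dd wt K (A v) (P v) a k j) := by
  induction j with
  | zero =>
    simp only [Dd]
    exact ((hL.sub hL').mul (hPa a)).mul (AnE.const _)
  | succ j ih =>
    simp only [Dd]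
    exact (ih.sub (((hL.mul (N2_Pge hPa a)).mul (AnE.const _)).mul ih)).sub
      (((hL'.mul (N2_Pls hPa a)).mul (AnE.const _)).mul ih)

theorem N2_HH {K : ℕ} {A : E → Matrix ι ι ℂ} {P : E → ℤ → Matrix ι ι ℂ}
    (hL : AnE Ω (fun v => Lm wt (A v))) (hL' : AnE Ω (fun v => Lm wt (ZQ38.bar (A v))))
    (hPa : ∀ a, AnE Ω (fun v => P v a)) (J : ℕ) :
    AnE Ω (fun v => HH wt K (A v) (P v) J) := by
  unfold HH
  refine AnE.sum _ fun a _ => AnE.sum _ fun k _ => ?_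
  unfold Hd
  refine ((hL.mul (hPa a)).mul (AnE.const _)).sub (AnE.sum _ fun j _ => ?_)
  exact ((hL.mul (N2_Pge hPa a)).mul (AnE.const _)).mul (N2_Dd hL hL' hPa a k j)

theorem N2_AAg {A : E → Matrix ι ι ℂ} (hA : AnE Ω A) (s : Equiv.Perm ι) (k : ℤ) :
    AnE Ω (fun v => AAg wt p s k (A v)) := by
  intro i j
  by_cases h1 : k ≤ p j
  · by_cases h2 : wt i = wt j
    · have h3 : (fun v => AAg wt p s k (A v) i j) = fun v => A v i j := by
        funext v
        simp only [AAg, Matrix.of_apply, MW38.dg, if_pos h1, if_pos h2]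
      rw [h3]
      exact hA i j
    · have h3 : (fun v => AAg wt p s k (A v) i j) = fun _ => (0 : ℂ) := by
        funext v
        simp only [AAg, Matrix.of_apply, MW38.dg, if_pos h1, if_neg h2]
      rw [h3]
      exact analyticOnNhd_const
  · by_cases h2 : wt i = wt (s j)
    · have h3 : (fun v => AAg wt p s k (A v) i j) = fun v => ZQ38.bar (A v) i (s j) := by
        funext v
        simp only [AAg, Matrix.of_apply, MW38.dg, if_neg h1, if_pos h2]
        rfl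
      rw [h3]
      exact (N2_bar hA) i (s j)
    · have h3 : (fun v => AAg wt p s k (A v) i j) = fun _ => (0 : ℂ) := by
        funext v
        simp only [AAg, Matrix.of_apply, MW38.dg, if_neg h1, if_neg h2, map_zero]
      rw [h3]
      exact analyticOnNhd_const

theorem VE.anE (hv : VE wt p Q Ω Φ) : AnE Ω Φ := AnE.of_holo hv.an

theorem N2_PIg (hv : VE wt p Q Ω Φ) {s : Equiv.Perm ι}
    (hs : ∀ j, wt (s j) = wt j ∧ p (s j) = wt j - p j) (a : ℤ) :
    AnE Ω (fun v => PIg wt p s a (Φ v)) := by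
  have hA := N2_AAg (wt := wt) (p := p) hv.anE s a
  exact (hA.mul (AnE.const _)).mul (hA.inv fun v h => AAg_isUnit (hv.mhs v h) hs a)

theorem VE.anP (hv : VE wt p Q Ω Φ) (a : ℤ) : AnE Ω (fun v => PPg wt p c.s (Φ v) a) :=
  (N2_PIg hv c.hs a).sub (N2_PIg hv c.hs (a + 1))

theorem VE.anh (hv : VE wt p Q Ω Φ) : AnE Ω (fun v => hh c (Φ v)) := by
  unfold hh
  refine N2_HH ?_ ?_ (fun a => hv.anP a) c.J
  · exact N2_Lm hv.anE (fun v h => (hv.mhs v h).unit) fun v h => (hv.mhs v h).tri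
  · exact N2_Lm (N2_bar hv.anE) (fun v h => bar_isUnit (hv.mhs v h).unit) fun v h =>
      bar_tri (hv.mhs v h).tri

theorem VE.unit_hh (hv : VE wt p Q Ω Φ) {v : E} (h : v ∈ Ω) : IsUnit (hh c (Φ v)) := by
  unfold hh
  exact (HH_un (exists_GrP (hv.mhs v h) c.hs c.hK) c.J).isUnit

theorem N2_PG (hv : VE wt p Q Ω Φ) : AnE Ω (fun v => PG c.K (PPg wt p c.s (Φ v))) := by
  unfold PG
  exact AnE.sum _ fun a _ => (hv.anP a).smul _

theorem VE.anO (hv : VE wt p Q Ω Φ) :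
    AnE Ω (fun v => oP c.K (PPg wt p c.s (Φ v)) (hh c (Φ v))) ∧
    AnE Ω (fun v => oQ wt c.K (PPg wt p c.s (Φ v)) (hh c (Φ v))) := by
  have h1 : AnE Ω (fun v => hh c (Φ v)) := hv.anh
  have h2 : AnE Ω (fun v => (hh c (Φ v))⁻¹) := h1.inv fun v h => hv.unit_hh h
  have h3 : AnE Ω (fun v => PG c.K (PPg wt p c.s (Φ v))) := N2_PG hv
  exact ⟨(h1.mul h3).mul h2, (h1.mul ((AnE.const _).sub h3)).mul h2⟩

theorem VE.anD (hv : VE wt p Q Ω Φ) (P : Pk wt Q m n) : AnE Ω (fun v => Dp c P (Φ v)) := by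
  intro s t
  have h1 := (hv.anO (c := c)).1
  have e : (fun v => Dp c P (Φ v) s t) = fun v => ∑ i, ∑ j,
      oP c.K (PPg wt p c.s (Φ v)) (hh c (Φ v)) i j *
        ((P.d.rho (Matrix.single i j 1)).map (algebraMap ℚ ℂ)) s t := by
    funext v
    simp only [Dp, rhoC, Matrix.sum_apply, Matrix.smul_apply, smul_eq_mul]
  rw [e]
  exact Finset.analyticOnNhd_fun_sum _ fun i _ => Finset.analyticOnNhd_fun_sum _ fun j _ =>
    (h1 i j).mul analyticOnNhd_const

theorem VE.ane (hv : VE wt p Q Ω Φ) (P : Pk wt Q m n) (i : Fin P.d.r) :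
    AnalyticOnNhd ℝ (fun v => ep c P (Φ v) i) Ω := by
  have h1 : AnE Ω (fun v => hh c (Φ v)) := hv.anh
  have h2 : AnE Ω (fun v => (hh c (Φ v))⁻¹) := h1.inv fun v h => hv.unit_hh h
  have h3 : AnE Ω (fun v => hh c (Φ v) * Dwt wt * (hh c (Φ v))⁻¹ - P.t₀.map (algebraMap ℚ ℂ)) :=
    ((h1.mul (AnE.const _)).mul h2).sub (AnE.const _)
  have e : (fun v => ep c P (Φ v) i) = fun v => ∑ k, ∑ l,
      (hh c (Φ v) * Dwt wt * (hh c (Φ v))⁻¹ - P.t₀.map (algebraMap ℚ ℂ)) k l *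
        ((P.d.lam (Matrix.single k l 1) i : ℚ) : ℂ) := by
    funext v
    simp only [ep, lamC, Finset.sum_apply, Pi.smul_apply, smul_eq_mul]
  rw [e]
  exact Finset.analyticOnNhd_fun_sum _ fun k _ => Finset.analyticOnNhd_fun_sum _ fun l _ =>
    (h3 k l).mul analyticOnNhd_const

end AD19
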