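import Pool.Agent.LibAD19.N2

/-!
Row N3: the pointwise Hodge decomposition of `𝔲 / 𝔫`; `Nf` is a nonnegative quadratic form, real
analytic on `E`.

PLAN. pt_hd: apply `ZW67.GD.pv` to the constant function `fun _ => Dp c P A` on `Set.univ`:
sm = Sm.const; poly: `W_all P.d.wd ..` and `npoly_eq` (as in types_ok0 in
Pool/Agent/LibZQ38/Asm2.lean); conj: `W_conj`; skew, pos: `(X67_je P.d).skew`, `.pos`
(Pool/Agent/LibZQ38/JX67.lean, dat_skew, dat_pos) with `ZW67.polG hA c.hs c.hK`; deg: DZ of a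
constant is 0. The operators are in cx m: `oP_mem`, `oQ_mem` (B06) and `cx_mono hm`;
GrP: `exists_GrP hA c.hs c.hK`; DelH: `HH_delH _ c.hJ` (hh is HH by definition).
pt_YY: `ZW67.YY_LP` . Nf_eq: `US38.hm_self` as in ZW67.Mem.NM_eq, NM unfolds by rfl.
Nf_an: hm, metr, Rm, imv are finite sums and products of entries of `LP (2K) (Dp ..)`
(LP = Polynomial.aeval .. : AnE.aeval), of conjugates and of `ep`; take `Complex.re` (real
analytic).
-/

open Matrix Complex Filter Topology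
open scoped ContDiff

namespace AD19

open ZQ38

variable {ι : Type} [Fintype ι] [DecidableEq ι] {E : Type} [NormedAddCommGroup E]
  [NormedSpace ℂ E] {wt p : ι → ℤ} {Q : Matrix ι ι ℚ} {m n : Submodule ℚ (Matrix ι ι ℚ)}
  {Ω : Set E} {Φ : E → Matrix ι ι ℂ} {c : Par wt p} {A : Matrix ι ι ℂ}

theorem N3_dot {β : Type} [Fintype β] {x y : E → β → ℂ}
    (hx : ∀ i, AnalyticOnNhd ℝ (fun v => x v i) Ω) (hy : ∀ i, AnalyticOnNhd ℝ (fun v => y v i) Ω) :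
    AnalyticOnNhd ℝ (fun v => x v ⬝ᵥ y v) Ω := by
  simp only [dotProduct]
  exact Finset.analyticOnNhd_fun_sum _ fun i _ => (hx i).mul (hy i)

theorem N3_mulVec {α β : Type} [Fintype β] {A : E → Matrix α β ℂ} {x : E → β → ℂ}
    (hA : AnE Ω A) (hx : ∀ i, AnalyticOnNhd ℝ (fun v => x v i) Ω) (i : α) :
    AnalyticOnNhd ℝ (fun v => (A v *ᵥ x v) i) Ω :=
  N3_dot (fun j => hA i j) hx

theorem N3_star {β : Type} {x : E → β → ℂ}
    (hx : ∀ i, AnalyticOnNhd ℝ (fun v => x v i) Ω) (i : β) :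
    AnalyticOnNhd ℝ (fun v => (star (x v)) i) Ω :=
  Complex.conjCLE.toContinuousLinearMap.comp_analyticOnNhd (hx i)

theorem pt_op (hA : MW38.MHS wt p (Q.map (algebraMap ℚ ℝ)) A) (hm : mtLie wt p A ≤ m) :
    GrP wt p c.K A (PPg wt p c.s A) ∧ DelH wt p A (PPg wt p c.s A) (hh c A) ∧
      oP c.K (PPg wt p c.s A) (hh c A) ∈ cx m ∧ oQ wt c.K (PPg wt p c.s A) (hh c A) ∈ cx m := by
  have hP : GrP wt p c.K A (PPg wt p c.s A) := exists_GrP hA c.hs c.hK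
  have hh' : DelH wt p A (PPg wt p c.s A) (hh c A) := HH_delH hP c.hJ
  exact ⟨hP, hh', cx_mono hm (oP_mem hP hh'), cx_mono hm (oQ_mem hP hh')⟩

theorem pt_poly (hA : MW38.MHS wt p (Q.map (algebraMap ℚ ℝ)) A) (hlie : IsLie m)
    (htri : ∀ B ∈ m, MW38.Tri wt B) (hm : mtLie wt p A ≤ m) (P : Pk wt Q m n) :
    Polynomial.aeval (Dp c P A) (ZW67.npoly (2 * c.K)) = 0 ∧
      (Dp c P A).map (starRingEnd ℂ) = (P.d.w : ℂ) • 1 - Dp c P A := by
  obtain ⟨hP, hh', h1, h2⟩ := pt_op (c := c) hA hm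
  refine ⟨?_, W_conj P.d.wd htri P.mem P.dgt hP hh' h1 h2⟩
  rw [npoly_eq]
  exact_mod_cast W_all P.d.wd hlie htri hP hh'.un h1

theorem pt_hd (hA : MW38.MHS wt p (Q.map (algebraMap ℚ ℝ)) A) (hlie : IsLie m)
    (htri : ∀ B ∈ m, MW38.Tri wt B) (hm : mtLie wt p A ≤ m) (P : Pk wt Q m n) :
    SP38.HD P.d.w (2 * c.K) P.QW (fun a => ZW67.LP (2 * c.K) (Dp c P A) a) := by
  obtain ⟨hP, hh', h1, h2⟩ := pt_op (c := c) hA hm
  obtain ⟨h3, h4⟩ := pt_poly (c := c) hA hlie htri hm P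
  have hG : ZW67.GD P.d.w (2 * c.K) P.QW Set.univ (fun _ => Dp c P A) :=
    { sm := SP38.Sm.const _
      poly := fun _ _ => h3
      conj := fun _ _ => h4
      skew := fun _ _ => (X67_je P.d).skew (ZW67.polG hA c.hs c.hK) hh'.un h1
      deg := fun z _ => by rw [SP38.DZ_const, zero_mul, mul_zero, sub_zero]
      pos := fun _ _ a v hv1 hv0 =>
        (X67_je P.d).pos (ZW67.polG hA c.hs c.hK) hh'.un h1 hv1 hv0 }
  exact (hG.pv isOpen_univ).hd 0 (Set.mem_univ _)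

theorem Nf_eq (hA : MW38.MHS wt p (Q.map (algebraMap ℚ ℝ)) A) (hlie : IsLie m)
    (htri : ∀ B ∈ m, MW38.Tri wt B) (hm : mtLie wt p A ≤ m) (P : Pk wt Q m n) :
    Nf c P A = SP38.qf (SP38.metr P.d.w (2 * c.K) P.QW
      (fun a => ZW67.LP (2 * c.K) (Dp c P A) a))
      (US38.Rm P.d.w (fun a => ZW67.LP (2 * c.K) (Dp c P A) a) *ᵥ US38.imv (ep c P A)) ∧
    0 ≤ Nf c P A ∧
    ZW67.NM P.d.w (2 * c.K) P.QW (fun _ => Dp c P A) (fun _ => ep c P A) 0 =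
      ((Nf c P A : ℝ) : ℂ) := by
  have hd := pt_hd (c := c) hA hlie htri hm P
  have key : ZW67.NM P.d.w (2 * c.K) P.QW (fun _ => Dp c P A) (fun _ => ep c P A) 0 =
      ((SP38.qf (SP38.metr P.d.w (2 * c.K) P.QW
        (fun a => ZW67.LP (2 * c.K) (Dp c P A) a))
        (US38.Rm P.d.w (fun a => ZW67.LP (2 * c.K) (Dp c P A) a) *ᵥ
          US38.imv (ep c P A)) : ℝ) : ℂ) := US38.hm_self hd.posDef _
  have h1 : Nf c P A = SP38.qf (SP38.metr P.d.w (2 * c.K) P.QW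
      (fun a => ZW67.LP (2 * c.K) (Dp c P A) a))
      (US38.Rm P.d.w (fun a => ZW67.LP (2 * c.K) (Dp c P A) a) *ᵥ US38.imv (ep c P A)) := by
    rw [Nf, key, Complex.ofReal_re]
  refine ⟨h1, ?_, ?_⟩
  · rw [h1]
    exact SP38.qf_nonneg hd.posDef _
  · rw [key, h1]

/-- without assumptions: analytic -/
theorem Nf_an (hv : VE wt p Q Ω Φ) (P : Pk wt Q m n) :
    AnalyticOnNhd ℝ (fun v => Nf c P (Φ v)) Ω := by
  have hD : AnE Ω (fun v => Dp c P (Φ v)) := hv.anD P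
  have hLP : ∀ a : ℤ, AnE Ω (fun v => ZW67.LP (2 * c.K) (Dp c P (Φ v)) a) :=
    fun a => hD.aeval _
  have hRm : AnE Ω (fun v => US38.Rm P.d.w (fun a => ZW67.LP (2 * c.K) (Dp c P (Φ v)) a)) :=
    AnE.sum _ fun b _ => hLP b
  have hMt : AnE Ω (fun v => SP38.metr P.d.w (2 * c.K) P.QW
      (fun a => ZW67.LP (2 * c.K) (Dp c P (Φ v)) a)) :=
    AnE.sum _ fun a _ => ((AnE.const _).mul (hLP a)).smul _
  have him : ∀ i, AnalyticOnNhd ℝ (fun v => US38.imv (ep c P (Φ v)) i) Ω := fun i =>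
    (Complex.ofRealCLM.comp Complex.imCLM).comp_analyticOnNhd (hv.ane P i)
  have hx := N3_mulVec hRm him
  have hy := N3_star hx
  have hz := N3_mulVec hMt hx
  have hdot : AnalyticOnNhd ℝ (fun v => US38.hm (SP38.metr P.d.w (2 * c.K) P.QW
      (fun a => ZW67.LP (2 * c.K) (Dp c P (Φ v)) a))
      (US38.Rm P.d.w (fun a => ZW67.LP (2 * c.K) (Dp c P (Φ v)) a) *ᵥ
        US38.imv (ep c P (Φ v)))
      (US38.Rm P.d.w (fun a => ZW67.LP (2 * c.K) (Dp c P (Φ v)) a) *ᵥ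
        US38.imv (ep c P (Φ v)))) Ω :=
    N3_dot hy hz
  exact Complex.reCLM.comp_analyticOnNhd hdot

end AD19
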