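import Pool.Agent.LibAD19.N3

/-!
Row N4: the member of the family over the upper half plane, for any Lie algebra `m` which contains
the Mumford-Tate algebras.

PLAN. Copy of `asm_mem0` (Pool/Agent/LibZQ38/Asm2.lean). hO : OpD wt p c.K Φ (fun z => PPg wt p c.s
(Φ z)) (fun z => hh c (Φ z)) : asm_OpD with hh (HH_delH, c.hJ) and An (Hc 0) h by B05b_HH (or
`exists_h` and `delH_unique`, or VE.anh with `E = ℂ`: `AnE` and `An` agree definitionally up to
unfolding); hQ : QuD .. from pt_op (N3) and P.mem, P.dgt, P.d.wd. Then the fields: sm = DD_sm hO,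
poly = DD_poly hO hQ, conj = DD_conj, skew, pos: as dat_skew, dat_pos (JX67) but with hQ instead of
X67_qud: `(X67_je P.d).skew (ZW67.polG ..) (hO.del z hz).un (hQ.opP z hz)`; deg = deg_DD;
sme = ee_sm; d0, d1 = ee_d0, ee_d1; types = types_ok0 P.d.wd hn ..; neg = P.d.jd.neg;
frame = ZW67.frame_of_JE hO hQ (X67_je P.d) fun z hz => DD_poly hO hQ hz. `DD` and `Dp`, `ee` and
`ep` agree by rfl.
-/

open Matrix Complex Filter Topology
open UpperHalfPlane hiding I
open SP38 (Hc)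
open scoped ContDiff

namespace AD19

open ZQ38

variable {ι : Type} [Fintype ι] [DecidableEq ι] {wt p : ι → ℤ} {Q : Matrix ι ι ℚ}
  {m n : Submodule ℚ (Matrix ι ι ℚ)} {Φ : ℂ → Matrix ι ι ℂ} {c : Par wt p}

theorem N4_VE (hv : MW38.VMHS wt p (Q.map (algebraMap ℚ ℝ)) Φ) : VE wt p Q (Hc 0) Φ where
  mhs := hv.mhs
  an i j := DifferentiableOn.analyticOnNhd (hv.hol i j) (SP38.isOpen_Hc 0)
  tr z hz j ξ := by
    have hd : ∀ i, fderiv ℂ (fun v => Φ v i j) z ξ = ξ * deriv (fun v => Φ v i j) z := by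
      intro i
      have h3 : deriv (fun v => Φ v i j) z = fderiv ℂ (fun v => Φ v i j) z 1 := rfl
      rw [h3, ← smul_eq_mul, ← map_smul, smul_eq_mul, mul_one]
    have h1 := Submodule.smul_mem _ ξ (hv.tr z hz j)
    have h2 : (fun i => fderiv ℂ (fun v => Φ v i j) z ξ) =
        ξ • fun i => deriv (fun z => Φ z i j) z := by
      funext i
      rw [hd i, Pi.smul_apply, smul_eq_mul]
    rw [h2]
    exact h1

theorem mem1 (hv : MW38.VMHS wt p (Q.map (algebraMap ℚ ℝ)) Φ) (hlie : IsLie m)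
    (htri : ∀ B ∈ m, MW38.Tri wt B) (hm : ∀ z ∈ Hc 0, mtLie wt p (Φ z) ≤ m)
    (hn : n ≤ m ⊓ Low ℚ wt) (hty : ∀ z ∈ Hc 0, TyOK wt p m n (Φ z)) (P : Pk wt Q m n) :
    ZW67.Mem P.d.w (2 * c.K) P.QW (fun z => Dp c P (Φ z)) (fun z => ep c P (Φ z)) := by
  have hop : ∀ z ∈ Hc 0, GrP wt p c.K (Φ z) (PPg wt p c.s (Φ z)) ∧
      DelH wt p (Φ z) (PPg wt p c.s (Φ z)) (hh c (Φ z)) ∧
      oP c.K (PPg wt p c.s (Φ z)) (hh c (Φ z)) ∈ cx m ∧
      oQ wt c.K (PPg wt p c.s (Φ z)) (hh c (Φ z)) ∈ cx m :=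
    fun z hz => pt_op (hv.mhs z hz) (hm z hz)
  have hVE : VE wt p Q (Hc 0) Φ := N4_VE hv
  have hO : OpD wt p c.K Φ (fun z => PPg wt p c.s (Φ z)) (fun z => hh c (Φ z)) :=
    { hol := ⟨fun z hz => (hv.mhs z hz).unit, hv.hol, hv.tr⟩
      gr := fun z hz => (hop z hz).1
      del := fun z hz => (hop z hz).2.1
      anP := fun a => PPg_an hv c.hs a
      anh := hVE.anh }
  have hQ : QuD wt c.K (fun z => PPg wt p c.s (Φ z)) (fun z => hh c (Φ z)) m n P.t₀ P.d.w P.d.r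
      P.d.lam P.d.rho :=
    ⟨hlie, htri, P.mem, P.dgt, fun z hz => (hop z hz).2.2.1, fun z hz => (hop z hz).2.2.2,
      P.d.wd⟩
  exact
    { gd :=
        { sm := DD_sm hO
          poly := fun z hz => DD_poly hO hQ hz
          conj := fun z hz => DD_conj hO hQ hz
          skew := fun z hz => (X67_je P.d).skew (ZW67.polG (hv.mhs z hz) c.hs c.hK)
            (hO.del z hz).un (hQ.opP z hz)
          deg := fun z hz => deg_DD hO hQ hz
          pos := fun z hz a v hv1 hv0 => (X67_je P.d).pos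
            (ZW67.polG (hv.mhs z hz) c.hs c.hK) (hO.del z hz).un (hQ.opP z hz) hv1 hv0 }
      sme := ee_sm hO
      d0 := fun z hz a ha => ee_d0 hO hQ hz ha
      d1 := fun z hz a ha => ee_d1 hO hQ hz ha
      types := fun z hz a ha => types_ok0 P.d.wd hn hlie htri P.mem P.dgt (hO.gr z hz)
        (hO.del z hz) (hop z hz).2.2.1 (hop z hz).2.2.2 P.d.jd.neg
        (fun t ht => hty z hz t ht) ha
      neg := P.d.jd.neg
      frame := ZW67.frame_of_JE hO hQ (X67_je P.d) fun z hz => DD_poly hO hQ hz }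

end AD19
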