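import Pool.Agent.LibZQ38.C11a

/-!
Row N5a: comparison of the data attached to conjugate ideals.
-/

open Matrix Complex
open MW38 (Fl Tri blk dg)

namespace AD19

open ZQ38

variable {ι : Type} [Fintype ι] [DecidableEq ι] {wt : ι → ℤ}

theorem N5_exG {u u' n n' : Submodule ℚ (Matrix ι ι ℚ)} {r r' : ℕ}
    {lam : Matrix ι ι ℚ →ₗ[ℚ] (Fin r → ℚ)} {lam' : Matrix ι ι ℚ →ₗ[ℚ] (Fin r' → ℚ)}
    (hs : ∀ v, ∃ x ∈ u, lam x = v) (hk : ∀ x ∈ u, lam x = 0 → x ∈ n)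
    (hk' : ∀ x ∈ u', x ∈ n' → lam' x = 0) (c : Matrix ι ι ℚ →ₗ[ℚ] Matrix ι ι ℚ)
    (hu : ∀ x ∈ u, c x ∈ u') (hn : ∀ x ∈ n, c x ∈ n') :
    ∃ G : Matrix (Fin r') (Fin r) ℚ, ∀ x ∈ u, lam' (c x) = G *ᵥ lam x := by
  choose X hX hX' using fun i : Fin r => hs (Pi.single i 1)
  refine ⟨fun j i => lam' (c (X i)) j, fun x hx => ?_⟩
  set y := ∑ i, lam x i • X i with hy
  have hyu : y ∈ u := Submodule.sum_mem _ fun i _ => Submodule.smul_mem _ _ (hX i)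
  have hly : lam y = lam x := by
    rw [hy, map_sum]
    funext j
    simp [hX', Finset.sum_apply, Pi.single_apply]
  have hxy : x - y ∈ n := hk _ (Submodule.sub_mem _ hx hyu) (by rw [map_sub, hly, sub_self])
  have h1 : lam' (c (x - y)) = 0 := hk' _ (hu _ (Submodule.sub_mem _ hx hyu)) (hn _ hxy)
  rw [map_sub, map_sub, sub_eq_zero] at h1
  rw [h1, hy, map_sum, map_sum]
  funext j
  simp [Matrix.mulVec, dotProduct, Finset.sum_apply, mul_comm]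

theorem N5_G {m m' n n' : Submodule ℚ (Matrix ι ι ℚ)} {t₀ : Matrix ι ι ℚ} {w w' : ℤ} {r r' : ℕ}
    {lam : Matrix ι ι ℚ →ₗ[ℚ] (Fin r → ℚ)} {rho : Matrix ι ι ℚ →ₗ[ℚ] Matrix (Fin r) (Fin r) ℚ}
    {lam' : Matrix ι ι ℚ →ₗ[ℚ] (Fin r' → ℚ)}
    {rho' : Matrix ι ι ℚ →ₗ[ℚ] Matrix (Fin r') (Fin r') ℚ}
    (hlie : IsLie m) (ht : ∀ A ∈ m, Tri wt A) (ht₀ : t₀ ∈ m)
    (ht₀' : dgR wt t₀ = Matrix.diagonal (fun i => (wt i : ℚ)))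
    (hW : WD wt m (m ⊓ Low ℚ wt) n w r lam rho) (hW' : WD wt m' (m' ⊓ Low ℚ wt) n' w' r' lam' rho')
    {γ : Matrix ι ι ℚ} (hγ : IsUnit γ) (hγt : Tri wt γ) (hm : m.map (ZL19.cjg γ γ⁻¹) = m')
    (hn' : n' = n.map (ZL19.cjg γ γ⁻¹)) (hn : n ≤ m ⊓ Low ℚ wt) (hne : n ≠ m ⊓ Low ℚ wt) :
    w' = w ∧ ∃ (G : Matrix (Fin r') (Fin r) ℚ) (G' : Matrix (Fin r) (Fin r') ℚ),
      G' * G = 1 ∧ G * G' = 1 ∧ (∀ x ∈ m ⊓ Low ℚ wt, lam' (γ * x * γ⁻¹) = G *ᵥ lam x) ∧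
      ∀ A ∈ m, rho' (γ * A * γ⁻¹) * G = G * rho A := by
  have hdet : IsUnit γ.det := (Matrix.isUnit_iff_isUnit_det γ).1 hγ
  have e1 : γ * γ⁻¹ = 1 := Matrix.mul_nonsing_inv γ hdet
  have e2 : γ⁻¹ * γ = 1 := Matrix.nonsing_inv_mul γ hdet
  have hγt' : Tri wt γ⁻¹ := hγt.inv hγ
  have c1 : ∀ A B : Matrix ι ι ℚ, γ * (A * B) * γ⁻¹ = (γ * A * γ⁻¹) * (γ * B * γ⁻¹) := by
    intro A B
    calc γ * (A * B) * γ⁻¹ = γ * A * 1 * B * γ⁻¹ := by rw [mul_one]; simp only [mul_assoc]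
      _ = γ * A * (γ⁻¹ * γ) * B * γ⁻¹ := by rw [e2]
      _ = (γ * A * γ⁻¹) * (γ * B * γ⁻¹) := by simp only [mul_assoc]
  have c2 : ∀ A : Matrix ι ι ℚ, γ⁻¹ * (γ * A * γ⁻¹) * γ = A := by
    intro A
    calc γ⁻¹ * (γ * A * γ⁻¹) * γ = (γ⁻¹ * γ) * A * (γ⁻¹ * γ) := by simp only [mul_assoc]
      _ = A := by rw [e2, one_mul, mul_one]
  have c3 : ∀ A : Matrix ι ι ℚ, γ * (γ⁻¹ * A * γ) * γ⁻¹ = A := by
    intro A
    calc γ * (γ⁻¹ * A * γ) * γ⁻¹ = (γ * γ⁻¹) * A * (γ * γ⁻¹) := by simp only [mul_assoc]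
      _ = A := by rw [e1, one_mul, mul_one]
  have m1 : ∀ A ∈ m, γ * A * γ⁻¹ ∈ m' := by
    intro A hA
    rw [← hm]
    exact ⟨A, hA, rfl⟩
  have m2 : ∀ A ∈ m', γ⁻¹ * A * γ ∈ m := by
    intro A hA
    rw [← hm] at hA
    obtain ⟨B, hB, rfl⟩ := hA
    rw [ZL19.cjg_apply, c2]
    exact hB
  have u1 : ∀ A ∈ m ⊓ Low ℚ wt, γ * A * γ⁻¹ ∈ m' ⊓ Low ℚ wt := fun A hA =>
    ⟨m1 A hA.1, C11a_low hγt hA.2 hγt'⟩
  have u2 : ∀ A ∈ m' ⊓ Low ℚ wt, γ⁻¹ * A * γ ∈ m ⊓ Low ℚ wt := fun A hA =>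
    ⟨m2 A hA.1, C11a_low hγt' hA.2 hγt⟩
  have n1 : ∀ x ∈ n, γ * x * γ⁻¹ ∈ n' := by
    intro x hx
    rw [hn']
    exact ⟨x, hx, rfl⟩
  have n2 : ∀ x ∈ n', γ⁻¹ * x * γ ∈ n := by
    intro x hx
    rw [hn'] at hx
    obtain ⟨y, hy, rfl⟩ := hx
    rw [ZL19.cjg_apply, c2]
    exact hy
  obtain ⟨G, hG⟩ := N5_exG hW.surj (fun x hx => (hW.ker x hx).1) (fun x hx => (hW'.ker x hx).2)
    (ZL19.cjg γ γ⁻¹) u1 n1
  obtain ⟨G', hG'⟩ := N5_exG hW'.surj (fun x hx => (hW'.ker x hx).1)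
    (fun x hx => (hW.ker x hx).2) (ZL19.cjg γ⁻¹ γ) u2 n2
  have hG1 : ∀ x ∈ m ⊓ Low ℚ wt, lam' (γ * x * γ⁻¹) = G *ᵥ lam x := hG
  have hG1' : ∀ x ∈ m' ⊓ Low ℚ wt, lam (γ⁻¹ * x * γ) = G' *ᵥ lam' x := hG'
  have hGG : G' * G = 1 := by
    refine C11a_ext fun v => ?_
    obtain ⟨x, hx, rfl⟩ := hW.surj v
    rw [← Matrix.mulVec_mulVec, ← hG1 x hx, ← hG1' _ (u1 x hx), c2, Matrix.one_mulVec]
  have hGG' : G * G' = 1 := by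
    refine C11a_ext fun v => ?_
    obtain ⟨x, hx, rfl⟩ := hW'.surj v
    rw [← Matrix.mulVec_mulVec, ← hG1' x hx, ← hG1 _ (u2 x hx), c3, Matrix.one_mulVec]
  have hst : ∀ A ∈ m, ∀ x ∈ m ⊓ Low ℚ wt, A * x - x * A ∈ m ⊓ Low ℚ wt := by
    intro A hA x hx
    refine ⟨hlie A hA x hx.1, Submodule.sub_mem _ ?_ ?_⟩
    · have := C11a_low (ht A hA) hx.2 MW38.Tri.one
      rwa [mul_one] at this
    · have := C11a_low MW38.Tri.one hx.2 (ht A hA)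
      rwa [one_mul] at this
  have hrho : ∀ A ∈ m, rho' (γ * A * γ⁻¹) * G = G * rho A := by
    intro A hA
    refine C11a_ext fun v => ?_
    obtain ⟨x, hx, rfl⟩ := hW.surj v
    rw [← Matrix.mulVec_mulVec, ← Matrix.mulVec_mulVec, ← hG1 x hx,
      ← hW'.act _ (m1 A hA) _ (u1 x hx), ← hW.act A hA x hx, ← hG1 _ (hst A hA x hx), ← c1, ← c1,
      mul_sub, sub_mul]
  refine ⟨?_, G, G', hGG, hGG', hG1, hrho⟩
  have hr : Nonempty (Fin r) := by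
    by_contra hr
    rw [not_nonempty_iff] at hr
    apply hne
    refine le_antisymm hn fun x hx => ?_
    exact (hW.ker x hx).1 (Subsingleton.elim _ _)
  have h1 := hrho t₀ ht₀
  have hdiag : dgR wt (γ * t₀ * γ⁻¹) = Matrix.diagonal (fun i => (wt i : ℚ)) := by
    have ht0 := ht t₀ ht₀
    rw [dgR_mul (hγt.mul ht0) hγt', dgR_mul hγt ht0, ht₀']
    have h2 : dgR wt γ * Matrix.diagonal (fun i => (wt i : ℚ)) =
        Matrix.diagonal (fun i => (wt i : ℚ)) * dgR wt γ := by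
      ext i j
      rw [Matrix.mul_diagonal, Matrix.diagonal_mul, dgR]
      split_ifs with h
      · rw [h, mul_comm]
      · rw [zero_mul, mul_zero]
    rw [h2, mul_assoc, ← dgR_mul hγt hγt', e1, B13_dgR_one, mul_one]
  rw [hW'.wtp _ (m1 t₀ ht₀) hdiag, hW.wtp t₀ ht₀ ht₀'] at h1
  have h3 := congrArg (fun M => G' * M) h1
  simp only [Matrix.smul_mul, Matrix.mul_smul, Matrix.one_mul, Matrix.mul_one, hGG] at h3
  obtain ⟨i⟩ := hr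
  have h4 := congrFun (congrFun h3 i) i
  simp only [Matrix.smul_apply, Matrix.one_apply_eq, smul_eq_mul, mul_one] at h4
  exact_mod_cast h4

end AD19
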