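import Pool.Agent.LibZQ38.C11c

/-!
Row N5b: comparison of the forms attached to conjugate ideals.
-/

open Matrix Complex
open MW38 (Fl Tri blk dg)

namespace AD19

open ZQ38

variable {ι : Type} [Fintype ι] [DecidableEq ι] {wt : ι → ℤ}

theorem N5_Q {Q : Matrix ι ι ℚ} (hQu : IsUnit (dgR wt Q)) {m m' n n' : Submodule ℚ (Matrix ι ι ℚ)}
    {w : ℤ} {r r' : ℕ}
    {lam : Matrix ι ι ℚ →ₗ[ℚ] (Fin r → ℚ)} {rho : Matrix ι ι ℚ →ₗ[ℚ] Matrix (Fin r) (Fin r) ℚ}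
    {lam' : Matrix ι ι ℚ →ₗ[ℚ] (Fin r' → ℚ)}
    {rho' : Matrix ι ι ℚ →ₗ[ℚ] Matrix (Fin r') (Fin r') ℚ}
    {j : (Fin r → ℚ) →ₗ[ℚ] Matrix ι ι ℚ} {j' : (Fin r' → ℚ) →ₗ[ℚ] Matrix ι ι ℚ}
    (hW : WD wt m (m ⊓ Low ℚ wt) n w r lam rho) (_hW' : WD wt m' (m' ⊓ Low ℚ wt) n' w r' lam' rho')
    (hJ : JD wt Q m (m ⊓ Low ℚ wt) n w r lam rho j)
    (hJ' : JD wt Q m' (m' ⊓ Low ℚ wt) n' w r' lam' rho' j')
    {γ : Matrix ι ι ℚ} (hγ : IsUnit γ) (hγt : Tri wt γ)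
    (hγQ : ∀ k, (blk wt k k γ)ᵀ * blk wt k k Q * blk wt k k γ = blk wt k k Q)
    (hm : m.map (ZL19.cjg γ γ⁻¹) = m') (hn' : n' = n.map (ZL19.cjg γ γ⁻¹))
    (hn : n ≤ m ⊓ Low ℚ wt) {G : Matrix (Fin r') (Fin r) ℚ}
    (hG : ∀ x ∈ m ⊓ Low ℚ wt, lam' (γ * x * γ⁻¹) = G *ᵥ lam x) :
    Gᵀ * QWf wt Q j' * G = QWf wt Q j := by
  have hdet : IsUnit γ.det := (Matrix.isUnit_iff_isUnit_det γ).1 hγ
  have e1 : γ * γ⁻¹ = 1 := Matrix.mul_nonsing_inv γ hdet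
  have e2 : γ⁻¹ * γ = 1 := Matrix.nonsing_inv_mul γ hdet
  have hγt' : Tri wt γ⁻¹ := hγt.inv hγ
  have c2 : ∀ A : Matrix ι ι ℚ, γ⁻¹ * (γ * A * γ⁻¹) * γ = A := by
    intro A
    calc γ⁻¹ * (γ * A * γ⁻¹) * γ = (γ⁻¹ * γ) * A * (γ⁻¹ * γ) := by simp only [mul_assoc]
      _ = A := by rw [e2, one_mul, mul_one]
  have c3 : ∀ A : Matrix ι ι ℚ, γ * (γ⁻¹ * A * γ) * γ⁻¹ = A := by
    intro A
    calc γ * (γ⁻¹ * A * γ) * γ⁻¹ = (γ * γ⁻¹) * A * (γ * γ⁻¹) := by simp only [mul_assoc]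
      _ = A := by rw [e1, one_mul, mul_one]
  have g1 : dgR wt γ * dgR wt γ⁻¹ = 1 := by rw [← dgR_mul hγt hγt', e1, B13_dgR_one]
  have g2 : dgR wt γ⁻¹ * dgR wt γ = 1 := by rw [← dgR_mul hγt' hγt, e2, B13_dgR_one]
  have hgQ := C11c_inv hγt hγQ
  have hWW : ∀ (A B C : Matrix ι ι ℚ), Tri wt A → B ∈ ZL19.WW wt w → Tri wt C →
      A * B * C ∈ ZL19.WW wt w := by
    intro A B C hA hB hC
    have := ZL19.WW_mul (ZL19.WW_mul (C11c_tri hA) hB) (C11c_tri hC)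
    rwa [zero_add, add_zero] at this
  have key : ∀ v, j' (G *ᵥ v) = dgR wt γ * j v * dgR wt γ⁻¹ := by
    intro v
    obtain ⟨x0, hx0, hx0'⟩ := hW.surj v
    obtain ⟨x1, hx1, x, hx, hxw, hx01⟩ := hJ.sup x0 hx0
    have hlx : lam x = v := by
      rw [← hx0', hx01, map_add, (hW.ker x1 (hn hx1)).2 hx1, zero_add]
    have hxm : γ * x * γ⁻¹ ∈ m' ⊓ Low ℚ wt := by
      refine ⟨?_, C11a_low hγt hx.2 hγt'⟩
      rw [← hm]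
      exact ⟨x, hx.1, rfl⟩
    have hxw' := hWW γ x γ⁻¹ hγt hxw hγt'
    have hlx' : lam' (γ * x * γ⁻¹) = G *ᵥ v := by rw [hG x hx, hlx]
    obtain ⟨y, hy, hyw, hxy⟩ := hJ.sym x hx hxw
    obtain ⟨y', hy', hyw', hxy'⟩ := hJ'.sym _ hxm hxw'
    rw [hlx] at hxy
    rw [hlx'] at hxy'
    have hy'' : γ * y * γ⁻¹ - y' ∈ n' := by
      refine Submodule.sub_mem _ ?_ hy'
      rw [hn']
      exact ⟨y, hy, rfl⟩
    have hyw'' : γ * y * γ⁻¹ - y' ∈ ZL19.WW wt w :=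
      Submodule.sub_mem _ (hWW γ y γ⁻¹ hγt hyw hγt') hyw'
    have hdiff : j' (G *ᵥ v) - dgR wt γ * j v * dgR wt γ⁻¹ =
        symb wt w (γ * y * γ⁻¹ - y') := by
      have h1 : j v = symb wt w x - symb wt w y := by rw [← hxy]; abel
      have h2 : j' (G *ᵥ v) = symb wt w (γ * x * γ⁻¹) - symb wt w y' := by rw [← hxy']; abel
      rw [h1, h2, C11c_symb_sub, C11c_symb_cjg hγt hxw hγt', C11c_symb_cjg hγt hyw hγt',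
        Matrix.mul_sub, Matrix.sub_mul]
      abel
    have hz := hJ'.nd _ hy'' hyw'' (by
      intro y₂ hy₂ hyw₂
      rw [← hdiff, ← C11c_B_apply, map_sub, C11c_B_apply, C11c_B_apply,
        hJ'.perp _ y₂ hy₂ hyw₂, zero_sub, neg_eq_zero]
      have hy₃ : γ⁻¹ * y₂ * γ ∈ n := by
        rw [hn'] at hy₂
        obtain ⟨y₃, hy₃, rfl⟩ := hy₂
        rw [ZL19.cjg_apply, c2]
        exact hy₃
      have hyw₃ := hWW γ⁻¹ y₂ γ hγt' hyw₂ hγt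
      rw [← c3 y₂, C11c_symb_cjg hγt hyw₃ hγt', C11c_QE hQu g1 g2 hgQ]
      exact hJ.perp v _ hy₃ hyw₃)
    rw [hz] at hdiff
    exact sub_eq_zero.1 hdiff
  ext a b
  rw [C11c_form, key, key, C11c_QE hQu g1 g2 hgQ]
  rfl

end AD19
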