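import Pool.Agent.LibAD19.Def
import Pool.Agent.LibAD19.N3
import Pool.Agent.LibAD19.N5a
import Pool.Agent.LibAD19.N5b

/-!
Row N5c: conjugate data: the grading operator and the extension class.
-/

open Matrix Complex Filter Topology
open MW38 (Fl Tri blk dg)
open scoped ContDiff

namespace AD19

open ZQ38

variable {ι : Type} [Fintype ι] [DecidableEq ι] {wt p : ι → ℤ} {Q : Matrix ι ι ℚ}
  {m m' n n' : Submodule ℚ (Matrix ι ι ℚ)} {c : Par wt p}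

theorem N5_Yt {A : Matrix ι ι ℂ} (hA : MW38.MHS wt p (Q.map (algebraMap ℚ ℝ)) A)
    (htri : ∀ B ∈ m, Tri wt B) (hm : mtLie wt p A ≤ m) (P : Pk wt Q m n) :
    hh c A * Dwt wt * (hh c A)⁻¹ - P.t₀.map (algebraMap ℚ ℂ) ∈ cx (m ⊓ Low ℚ wt) := by
  obtain ⟨-, hde, hoP, hoQ⟩ := pt_op (c := c) hA hm
  have hh' := hde.un
  have ht0 : P.t₀.map (algebraMap ℚ ℂ) ∈ cx m := mem_cx_of_mem P.mem
  have htri' : Tri wt (P.t₀.map (algebraMap ℚ ℂ)) := cx_tri htri ht0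
  have hdg : dgR wt (P.t₀.map (algebraMap ℚ ℂ)) = Dwt wt := by
    ext i j
    have h3 := congrFun (congrFun P.dgt i) j
    by_cases hij : wt i = wt j
    · rw [dgR, if_pos hij] at h3 ⊢
      rw [Matrix.map_apply, h3, Dwt]
      by_cases e : i = j
      · subst e
        rw [Matrix.diagonal_apply_eq, Matrix.diagonal_apply_eq]
        simp
      · rw [Matrix.diagonal_apply_ne _ e, Matrix.diagonal_apply_ne _ e, map_zero]
    · have e : i ≠ j := fun e => hij (by rw [e])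
      rw [dgR, if_neg hij, Dwt, Matrix.diagonal_apply_ne _ e]
  have hY : hh c A * Dwt wt * (hh c A)⁻¹ ∈ cx m := by
    rw [← oP_add_oQ (wt := wt) (hh c A) c.K (PPg wt p c.s A)]
    exact Submodule.add_mem _ hoP hoQ
  rw [W2_mem_u]
  refine ⟨Submodule.sub_mem _ hY ht0, ?_⟩
  refine W2_low_of_dgR (cx_tri htri hY) htri' ?_
  rw [B13_conj hh' B13_tri_D, B13_dgR_D, hdg]

theorem N5_eqv (hlie : IsLie m) (htri : ∀ B ∈ m, Tri wt B) (hn : n ≤ m ⊓ Low ℚ wt)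
    (hne : n ≠ m ⊓ Low ℚ wt) (P : Pk wt Q m n) (P' : Pk wt Q m' n') {γ : Matrix ι ι ℚ}
    (hγ : IsUnit γ) (hγt : Tri wt γ)
    (hγQ : ∀ k, (blk wt k k γ)ᵀ * blk wt k k Q * blk wt k k γ = blk wt k k Q)
    (hm : m.map (ZL19.cjg γ γ⁻¹) = m') (hn' : n' = n.map (ZL19.cjg γ γ⁻¹))
    (hQu : IsUnit (dgR wt Q)) :
    P'.d.w = P.d.w ∧ ∃ (G : Matrix (Fin P'.d.r) (Fin P.d.r) ℝ)
      (G' : Matrix (Fin P.d.r) (Fin P'.d.r) ℝ) (β : Fin P'.d.r → ℝ),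
      G' * G = 1 ∧ G * G' = 1 ∧ Gᵀ * P'.QW * G = P.QW ∧ ∀ A, MW38.MHS wt p (Q.map (algebraMap ℚ ℝ)) A →
        MW38.MHS wt p (Q.map (algebraMap ℚ ℝ)) (γ.map (algebraMap ℚ ℂ) * A) →
        mtLie wt p A ≤ m →
        Dp c P' (γ.map (algebraMap ℚ ℂ) * A) * SP38.cm G = SP38.cm G * Dp c P A ∧
        ep c P' (γ.map (algebraMap ℚ ℂ) * A) = SP38.cm G *ᵥ ep c P A + SP38.ofR β := by
  obtain ⟨hw, G, G', hGG, hGG', hG, hGr⟩ := N5_G hlie htri P.mem P.dgt P.d.wd P'.d.wd hγ hγt hm hn' hn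
    hne
  have hwd' : WD wt m' (m' ⊓ Low ℚ wt) n' P.d.w P'.d.r P'.d.lam P'.d.rho := hw ▸ P'.d.wd
  have hjd' : JD wt Q m' (m' ⊓ Low ℚ wt) n' P.d.w P'.d.r P'.d.lam P'.d.rho P'.d.j :=
    hw ▸ P'.d.jd
  have hQQ := N5_Q hQu P.d.wd hwd' P.d.jd hjd' hγ hγt hγQ hm hn' hn hG
  have hcm : SP38.cm (G.map (algebraMap ℚ ℝ)) = G.map (algebraMap ℚ ℂ) := by
    ext i j
    simp [SP38.cm]
  refine ⟨hw, G.map (algebraMap ℚ ℝ), G'.map (algebraMap ℚ ℝ),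
    fun i => ((P'.d.lam (γ * P.t₀ * γ⁻¹ - P'.t₀) i : ℚ) : ℝ), ?_, ?_, ?_, ?_⟩
  · rw [← Matrix.map_mul, hGG]
    simp
  · rw [← Matrix.map_mul, hGG']
    simp
  · rw [Pk.QW, Pk.QW, ← hQQ, Matrix.map_mul, Matrix.map_mul]
    rfl
  · intro A hA hA' hmA
    rw [hcm]
    have hgr := exists_GrP hA c.hs c.hK
    have hgr' := exists_GrP hA' c.hs c.hK
    have hde : DelH wt p A (PPg wt p c.s A) (hh c A) := HH_delH hgr c.hJ
    have hde' : DelH wt p (γ.map (algebraMap ℚ ℂ) * A)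
        (PPg wt p c.s (γ.map (algebraMap ℚ ℂ) * A)) (hh c (γ.map (algebraMap ℚ ℂ) * A)) :=
      HH_delH hgr' c.hJ
    obtain ⟨e1, e2⟩ := oP_conj hgr hde hgr' hde' hγ hγt (fun a => MW38.Fl_mul _ _ a)
    rw [C8b_invC hγ] at e1 e2
    have e3 : hh c (γ.map (algebraMap ℚ ℂ) * A) * Dwt wt *
        (hh c (γ.map (algebraMap ℚ ℂ) * A))⁻¹ = γ.map (algebraMap ℚ ℂ) *
        (hh c A * Dwt wt * (hh c A)⁻¹) * (γ⁻¹).map (algebraMap ℚ ℂ) := by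
      rw [← oP_add_oQ (hh c (γ.map (algebraMap ℚ ℂ) * A)) c.K
        (PPg wt p c.s (γ.map (algebraMap ℚ ℂ) * A)), ← oP_add_oQ (hh c A) c.K (PPg wt p c.s A),
        e1, e2, mul_add, add_mul]
    constructor
    · rw [Dp, e1]
      exact C11b_rho hGr (pt_op hA hmA).2.2.1
    · rw [ep, e3]
      have e4 : γ.map (algebraMap ℚ ℂ) * (hh c A * Dwt wt * (hh c A)⁻¹) *
          (γ⁻¹).map (algebraMap ℚ ℂ) - P'.t₀.map (algebraMap ℚ ℂ) =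
          γ.map (algebraMap ℚ ℂ) * (hh c A * Dwt wt * (hh c A)⁻¹ -
            P.t₀.map (algebraMap ℚ ℂ)) * (γ⁻¹).map (algebraMap ℚ ℂ) +
            (γ * P.t₀ * γ⁻¹ - P'.t₀).map (algebraMap ℚ ℂ) := by
        rw [Matrix.map_sub _ (fun a b => map_sub _ a b), Matrix.map_mul, Matrix.map_mul, mul_sub,
          sub_mul]
        abel
      rw [e4, lamC_add, lamC_rat, C11b_lam hG (N5_Yt hA htri hmA P)]
      congr 1

end AD19
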