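import Pool.Agent.LibAD19.N5c
import Pool.Agent.LibZW67.Pot

/-!
Row N5d: `Nf`, `Tf`, `Ef` are invariant under conjugation and do not depend on the data.
-/

open Matrix Complex Filter Topology
open MW38 (Fl Tri blk dg)
open scoped ContDiff ComplexOrder

namespace AD19

open ZQ38 SP38 US38 ZW67

variable {ι : Type} [Fintype ι] [DecidableEq ι] {wt p : ι → ℤ} {Q : Matrix ι ι ℚ}
  {m m' n n' : Submodule ℚ (Matrix ι ι ℚ)} {c : Par wt p}

theorem N5_NN {r r' : ℕ} {w : ℤ} {K : ℕ} {Q : Matrix (Fin r) (Fin r) ℝ}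
    {Q' : Matrix (Fin r') (Fin r') ℝ} {D : Matrix (Fin r) (Fin r) ℂ}
    {D' : Matrix (Fin r') (Fin r') ℂ} {e : Fin r → ℂ} {e' : Fin r' → ℂ}
    {γ : Matrix (Fin r') (Fin r) ℝ} {b : Fin r' → ℝ} (hγ : γᵀ * Q' * γ = Q)
    (h1 : D' * cm γ = cm γ * D) (h2 : e' = cm γ *ᵥ e + ofR b) :
    Rm w (fun a => LP K D' a) *ᵥ imv e' = cm γ *ᵥ (Rm w (fun a => LP K D a) *ᵥ imv e) ∧
    ∀ x y, US38.hm (metr w K Q' fun a => LP K D' a) (cm γ *ᵥ x) (cm γ *ᵥ y) =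
      US38.hm (metr w K Q fun a => LP K D a) x y := by
  have hP : ∀ a, LP K D' a * cm γ = cm γ * LP K D a := fun a => LP_tr h1 a
  refine ⟨?_, fun x y => hm_tr hγ hP x y⟩
  have h3 : Rm w (fun a => LP K D' a) * cm γ = cm γ * Rm w (fun a => LP K D a) := by
    rw [Rm, Rm, Matrix.sum_mul, Matrix.mul_sum]
    exact Finset.sum_congr rfl fun a _ => hP a
  rw [h2, inv_imv_add, inv_imv_ofR, add_zero, imv_tr, Matrix.mulVec_mulVec,
    Matrix.mulVec_mulVec, h3]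

theorem N5_metr {r r' : ℕ} {w : ℤ} {K : ℕ} {Q : Matrix (Fin r) (Fin r) ℝ}
    {Q' : Matrix (Fin r') (Fin r') ℝ} {D : Matrix (Fin r) (Fin r) ℂ}
    {D' : Matrix (Fin r') (Fin r') ℂ} {γ : Matrix (Fin r') (Fin r) ℝ} (hγ : γᵀ * Q' * γ = Q)
    (h1 : D' * cm γ = cm γ * D) :
    (cm γ)ᴴ * (metr w K Q' fun a => LP K D' a) * cm γ = metr w K Q fun a => LP K D a := by
  have hP' : ∀ a, LP K D' a * cm γ = cm γ * LP K D a := fun a => LP_tr h1 a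
  have h1 : (cm γ)ᴴ * (cm Q')ᵀ * cm γ = (cm Q)ᵀ := by
    have h2 : (cm γ)ᴴ = (cm γ)ᵀ := by
      ext i j
      simp [cm, Matrix.conjTranspose_apply]
    have h3 : (cm γ)ᵀ * cm Q' * cm γ = cm Q := by
      have h4 : (cm γ)ᵀ = cm γᵀ := by
        ext i j
        simp [cm]
      have h5 : cm (γᵀ * Q' * γ) = cm γᵀ * cm Q' * cm γ := by
        show (γᵀ * Q' * γ).map Complex.ofRealHom = γᵀ.map Complex.ofRealHom *
          Q'.map Complex.ofRealHom * γ.map Complex.ofRealHom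
        rw [Matrix.map_mul, Matrix.map_mul]
      rw [h4, ← h5, hγ]
    rw [h2]
    have h5 := congrArg Matrix.transpose h3
    rw [Matrix.transpose_mul, Matrix.transpose_mul, Matrix.transpose_transpose,
      ← Matrix.mul_assoc] at h5
    exact h5
  rw [metr, metr, Matrix.mul_sum, Matrix.sum_mul]
  refine Finset.sum_congr rfl fun a _ => ?_
  rw [Matrix.mul_smul, Matrix.smul_mul]
  congr 1
  calc (cm γ)ᴴ * ((cm Q')ᵀ * LP K D' a) * cm γ = (cm γ)ᴴ * (cm Q')ᵀ * (LP K D' a * cm γ) := by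
        simp only [Matrix.mul_assoc]
    _ = (cm γ)ᴴ * (cm Q')ᵀ * cm γ * LP K D a := by rw [hP']; simp only [Matrix.mul_assoc]
    _ = (cm Q)ᵀ * LP K D a := by rw [h1]

theorem N5_hs {r r' : ℕ} {M : Matrix (Fin r) (Fin r) ℂ} {M' : Matrix (Fin r') (Fin r') ℂ}
    {G : Matrix (Fin r') (Fin r) ℂ} {G' : Matrix (Fin r) (Fin r') ℂ} (h1 : G' * G = 1)
    (h2 : G * G' = 1) (hM : Gᴴ * M' * G = M) (hu : IsUnit M)
    {X : Matrix (Fin r) (Fin r) ℂ} {X' : Matrix (Fin r') (Fin r') ℂ} (hX : X' * G = G * X) :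
    hs M' X' = hs M X := by
  have hdet := (Matrix.isUnit_iff_isUnit_det M).1 hu
  have h1' : Gᴴ * G'ᴴ = 1 := by rw [← Matrix.conjTranspose_mul, h1, Matrix.conjTranspose_one]
  have h2' : G'ᴴ * Gᴴ = 1 := by rw [← Matrix.conjTranspose_mul, h2, Matrix.conjTranspose_one]
  have hM' : M' = G'ᴴ * M * G' := by
    rw [← hM]
    calc M' = (G'ᴴ * Gᴴ) * M' * (G * G') := by rw [h2', h2, Matrix.one_mul, Matrix.mul_one]
      _ = _ := by simp only [Matrix.mul_assoc]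
  have hX' : X' = G * X * G' := by
    calc X' = X' * (G * G') := by rw [h2, Matrix.mul_one]
      _ = _ := by rw [← Matrix.mul_assoc, hX]
  have hMi : M'⁻¹ = G * M⁻¹ * Gᴴ := by
    apply Matrix.inv_eq_right_inv
    rw [hM']
    calc G'ᴴ * M * G' * (G * M⁻¹ * Gᴴ) = G'ᴴ * (M * (G' * G) * M⁻¹) * Gᴴ := by
          simp only [Matrix.mul_assoc]
      _ = 1 := by rw [h1, Matrix.mul_one, Matrix.mul_nonsing_inv _ hdet, Matrix.mul_one, h2']
  rw [hs, hs, adj, adj, hMi, hM', hX', Matrix.conjTranspose_mul, Matrix.conjTranspose_mul]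
  have e : G * X * G' * (G * M⁻¹ * Gᴴ * (G'ᴴ * (Xᴴ * Gᴴ)) * (G'ᴴ * M * G')) =
      G * (X * (M⁻¹ * Xᴴ * M) * G') := by
    calc G * X * G' * (G * M⁻¹ * Gᴴ * (G'ᴴ * (Xᴴ * Gᴴ)) * (G'ᴴ * M * G')) =
        G * X * (G' * G) * M⁻¹ * (Gᴴ * G'ᴴ) * Xᴴ * (Gᴴ * G'ᴴ) * M * G' := by
          simp only [Matrix.mul_assoc]
      _ = _ := by
          rw [h1, h1', Matrix.mul_one, Matrix.mul_one, Matrix.mul_one]
          simp only [Matrix.mul_assoc]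
  rw [e, Matrix.trace_mul_comm, Matrix.mul_assoc, h1, Matrix.mul_one]

theorem N5_Nf (hlie : IsLie m) (htri : ∀ B ∈ m, Tri wt B) (hn : n ≤ m ⊓ Low ℚ wt)
    (hne : n ≠ m ⊓ Low ℚ wt) (P : Pk wt Q m n) (P' : Pk wt Q m' n') {γ : Matrix ι ι ℚ}
    (hγ : IsUnit γ) (hγt : Tri wt γ)
    (hγQ : ∀ k, (blk wt k k γ)ᵀ * blk wt k k Q * blk wt k k γ = blk wt k k Q)
    (hm : m.map (ZL19.cjg γ γ⁻¹) = m') (hn' : n' = n.map (ZL19.cjg γ γ⁻¹))
    {A : Matrix ι ι ℂ} (hA : MW38.MHS wt p (Q.map (algebraMap ℚ ℝ)) A)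
    (hA' : MW38.MHS wt p (Q.map (algebraMap ℚ ℝ)) (γ.map (algebraMap ℚ ℂ) * A))
    (hmA : mtLie wt p A ≤ m) :
    Nf c P' (γ.map (algebraMap ℚ ℂ) * A) = Nf c P A := by
  obtain ⟨hw, G, -, β, -, -, hG, hall⟩ := N5_eqv (c := c) hlie htri hn hne P P' hγ hγt hγQ hm hn'
    (Q_unit hA c.hs)
  obtain ⟨h1, h2⟩ := hall A hA hA' hmA
  obtain ⟨e1, e2⟩ := N5_NN (w := P.d.w) (K := 2 * c.K) hG h1 h2
  rw [Nf, Nf, hw]
  congr 1
  show US38.hm (metr P.d.w (2 * c.K) P'.QW fun a => LP (2 * c.K) (Dp c P' _) a)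
    (Rm P.d.w (fun a => LP (2 * c.K) (Dp c P' _) a) *ᵥ imv (ep c P' _))
    (Rm P.d.w (fun a => LP (2 * c.K) (Dp c P' _) a) *ᵥ imv (ep c P' _)) = _
  rw [e1, e2]
  rfl

theorem N5_Tf (hlie : IsLie m) (htri : ∀ B ∈ m, Tri wt B) (hn : n ≤ m ⊓ Low ℚ wt)
    (hne : n ≠ m ⊓ Low ℚ wt) (P : Pk wt Q m n) (P' : Pk wt Q m' n') {γ : Matrix ι ι ℚ}
    (hγ : IsUnit γ) (hγt : Tri wt γ)
    (hγQ : ∀ k, (blk wt k k γ)ᵀ * blk wt k k Q * blk wt k k γ = blk wt k k Q)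
    (hm : m.map (ZL19.cjg γ γ⁻¹) = m') (hn' : n' = n.map (ZL19.cjg γ γ⁻¹))
    {Ψ : ℂ → Matrix ι ι ℂ} {U : Set ℂ} (hU : IsOpen U)
    (hA : ∀ z ∈ U, MW38.MHS wt p (Q.map (algebraMap ℚ ℝ)) (Ψ z))
    (hA' : ∀ z ∈ U, MW38.MHS wt p (Q.map (algebraMap ℚ ℝ)) (γ.map (algebraMap ℚ ℂ) * Ψ z))
    (hmA : ∀ z ∈ U, mtLie wt p (Ψ z) ≤ m)
    (sD : Sm U (fun z => Dp c P (Ψ z)))
    (sD' : Sm U (fun z => Dp c P' (γ.map (algebraMap ℚ ℂ) * Ψ z))) {z : ℂ} (hz : z ∈ U) :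
    Tf c P' (fun z => γ.map (algebraMap ℚ ℂ) * Ψ z) z = Tf c P Ψ z ∧
    Ef c P' (fun z => γ.map (algebraMap ℚ ℂ) * Ψ z) z = Ef c P Ψ z := by
  obtain ⟨hw, G, G', β, hGG, hGG', hG, hall⟩ := N5_eqv (c := c) hlie htri hn hne P P' hγ hγt hγQ
    hm hn' (Q_unit (hA z hz) c.hs)
  obtain ⟨h1, h2⟩ := hall _ (hA z hz) (hA' z hz) (hmA z hz)
  obtain ⟨e1, e2⟩ := N5_NN (w := P.d.w) (K := 2 * c.K) hG h1 h2
  have hθ : DZ (fun z => Dp c P' (γ.map (algebraMap ℚ ℂ) * Ψ z)) z * cm G =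
      cm G * DZ (fun z => Dp c P (Ψ z)) z := by
    have e3 : DZ (fun z => Dp c P' (γ.map (algebraMap ℚ ℂ) * Ψ z) * cm G) z =
        DZ (fun z => cm G * Dp c P (Ψ z)) z := by
      apply DZ_congr
      filter_upwards [hU.mem_nhds hz] with x hx
      exact (hall _ (hA x hx) (hA' x hx) (hmA x hx)).1
    have e4 := DZ_mul hU hz (F := fun z => Dp c P' (γ.map (algebraMap ℚ ℂ) * Ψ z))
      (H := fun _ : ℂ => cm G) sD' (Sm.const _)
    rw [DZ_const, Matrix.mul_zero, add_zero] at e4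
    have e5 := DZ_mul hU hz (F := fun _ : ℂ => cm G) (H := fun z => Dp c P (Ψ z)) (Sm.const _) sD
    rw [DZ_const, Matrix.zero_mul, zero_add] at e5
    rw [← e4, e3, e5]
  constructor
  · rw [Tf, Tf, hw]
    show US38.hm (metr P.d.w (2 * c.K) P'.QW fun a => LP (2 * c.K) (Dp c P' _) a)
      (DZ (fun z => Dp c P' (γ.map (algebraMap ℚ ℂ) * Ψ z)) z *ᵥ
        (Rm P.d.w (fun a => LP (2 * c.K) (Dp c P' _) a) *ᵥ imv (ep c P' _)))
      (Rm P.d.w (fun a => LP (2 * c.K) (Dp c P' _) a) *ᵥ imv (ep c P' _)) = _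
    rw [e1, Matrix.mulVec_mulVec, hθ, ← Matrix.mulVec_mulVec, e2]
    rfl
  · rw [Ef, Ef, hw]
    have hhd := pt_hd (c := c) (hA z hz) hlie htri (hmA z hz) P
    refine N5_hs (G := cm G) (G' := cm G') ?_ ?_ (N5_metr hG h1) hhd.posDef.isUnit hθ
    · have h6 : cm (G' * G) = cm G' * cm G := by
        show (G' * G).map Complex.ofRealHom = G'.map Complex.ofRealHom * G.map Complex.ofRealHom
        rw [Matrix.map_mul]
      rw [← h6, hGG]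
      ext i j
      by_cases hij : i = j
      · subst hij
        simp [cm]
      · simp [cm, hij]
    · have h6 : cm (G * G') = cm G * cm G' := by
        show (G * G').map Complex.ofRealHom = G.map Complex.ofRealHom * G'.map Complex.ofRealHom
        rw [Matrix.map_mul]
      rw [← h6, hGG']
      ext i j
      by_cases hij : i = j
      · subst hij
        simp [cm]
      · simp [cm, hij]

end AD19
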