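import Pool.Agent.LibAD19.N3

/-!
Row N6: the auxiliary form only depends on the first derivative of the disc.

PLAN. `Tf` unfolds (rfl) to `US38.hm (metr ..) (DZ (fun z => Dp c P (Ψ z)) z *ᵥ del) del` where
everything but the DZ depends only on the value Ψ z (US38.TT, US38.del). So it is enough that
`DZ (fun z => Dp c P (Φ (b z))) t = DZ (fun τ => Dp c P (Φ (b t + τ • deriv b t))) 0`: entrywise
`dz` is `(fderiv ℝ f z 1 - I * fderiv ℝ f z I) / 2`; `v ↦ Dp c P (Φ v) i j` is real differentiable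
at b t (VE.anD), b is complex differentiable at t, so both `fderiv ℝ` are
`fderiv ℝ (Dp..) (b t) ∘ (ξ ↦ ξ • deriv b t)` (chain rule; `τ ↦ b t + τ • deriv b t` has the complex
derivative `deriv b t` at 0 and the value `b t + 0 • .. = b t`).
Ef: the same. EG: the same with pg and VE.anP (pg = PG is a finite linear combination of the
projectors).
-/

open Matrix Complex Filter Topology
open scoped ContDiff

namespace AD19

open ZQ38

variable {ι : Type} [Fintype ι] [DecidableEq ι] {E : Type} [NormedAddCommGroup E]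
  [NormedSpace ℂ E] {wt p : ι → ℤ} {Q : Matrix ι ι ℚ} {m n : Submodule ℚ (Matrix ι ι ℚ)}
  {Ω : Set E} {Φ : E → Matrix ι ι ℂ} {c : Par wt p} {b : ℂ → E} {t : ℂ}

private theorem N6_fder {f : E → ℂ} (hf : DifferentiableAt ℝ f (b t)) {c : ℂ → E} {s : ℂ}
    (hc : HasDerivAt c (deriv b t) s) (hs : c s = b t) (w : ℂ) :
    fderiv ℝ (fun z => f (c z)) s w = fderiv ℝ f (b t) (w • deriv b t) := by
  have h1 : HasFDerivAt c ((ContinuousLinearMap.toSpanSingleton ℂ (deriv b t)).restrictScalars ℝ)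
      s := hc.hasFDerivAt.restrictScalars ℝ
  have h2 : HasFDerivAt f (fderiv ℝ f (b t)) (c s) := by
    rw [hs]
    exact hf.hasFDerivAt
  have h3 := (h2.comp s h1).fderiv
  have h4 : fderiv ℝ (fun z => f (c z)) s = _ := h3
  rw [h4]
  rfl

/-- `DZ` of a composition with a disc -/
theorem DZ_chain {α β : Type} {A : E → Matrix α β ℂ} (hΩ : IsOpen Ω) (hA : AnE Ω A)
    (hb : AnalyticAt ℂ b t) (ht : b t ∈ Ω) :
    SP38.DZ (fun z => A (b z)) t = SP38.DZ (fun τ => A (b t + τ • deriv b t)) 0 := by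
  have _ := hΩ
  have h1 : HasDerivAt b (deriv b t) t := hb.differentiableAt.hasDerivAt
  have h2 : HasDerivAt (fun τ : ℂ => b t + τ • deriv b t) (deriv b t) 0 := by
    simpa using ((hasDerivAt_id (0 : ℂ)).smul_const (deriv b t)).const_add (b t)
  ext i j
  have hf : DifferentiableAt ℝ (fun v => A v i j) (b t) := (hA i j (b t) ht).differentiableAt
  have e1 : ∀ w, fderiv ℝ (fun z => A (b z) i j) t w =
      fderiv ℝ (fun v => A v i j) (b t) (w • deriv b t) :=
    N6_fder (f := fun v => A v i j) hf h1 rfl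
  have e2 : ∀ w, fderiv ℝ (fun τ : ℂ => A (b t + τ • deriv b t) i j) 0 w =
      fderiv ℝ (fun v => A v i j) (b t) (w • deriv b t) :=
    N6_fder (f := fun v => A v i j) hf h2 (by simp)
  show SP38.dz (fun z => A (b z) i j) t = SP38.dz (fun τ : ℂ => A (b t + τ • deriv b t) i j) 0
  unfold SP38.dz
  rw [e1, e1, e2, e2]

theorem Tf_chain (hΩ : IsOpen Ω) (hv : VE wt p Q Ω Φ) (P : Pk wt Q m n)
    (hb : AnalyticAt ℂ b t) (ht : b t ∈ Ω) :
    Tf c P (fun z => Φ (b z)) t = Tf c P (fun τ => Φ (b t + τ • deriv b t)) 0 := by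
  have h := DZ_chain (A := fun v => Dp c P (Φ v)) hΩ (hv.anD P) hb ht
  have h0 : b t + (0 : ℂ) • deriv b t = b t := by simp
  unfold Tf ZW67.TM US38.TT US38.del
  simp only [h0]
  rw [show (fun z => Dp c P (Φ (b z))) = fun z => (fun v => Dp c P (Φ v)) (b z) from rfl, h]

end AD19
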