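import Pool.Agent.LibAD19.N4
import Pool.Agent.LibAD19.G5

/-!
Row N7: the inequalities along every holomorphic disc.

PLAN. disc_mem: `mem1` for `fun τ => Ψ (cay t ρ τ)` (VE.pull). disc_ext: disc_mem.toE (ZW67.Mem.toE)
transported by `ExtE_comp` with φ = cai t ρ; P (φ z) = LP (Dp (Ψ (cay (cai z)))) = LP (Dp (Ψ z)) on
the ball, `deriv (cai) z • DZ (D ∘ cay) (cai z) = DZ D z` by US38.Inv2_DZ_comp and
cay ∘ cai = id near z (deriv (cai) z * deriv cay (cai z) = 1): the functions agree on the ball,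
rewrite the structure field by field (all fields only speak about points of the ball; derivatives
by DZ_congr on the open ball). Nf_T, Nf_rho: `ExtE.toD` (w ≤ -3) gives ExtD; `ExtD.TT_le`,
`ExtD.rho_ge` (see the proof of ZW67.Mem.pot), `NM` at z is `((Nf c P (Ψ z) : ℝ) : ℂ)` by Nf_eq
(N3), the functions `fun z => ((Nf c P (Ψ z) : ℝ) : ℂ)` and NM agree on the ball, `jj` only depends
on the germ (rho_congr / dzb_congr, dz_congr).
-/

open Matrix Complex Filter Topology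
open UpperHalfPlane hiding I
open SP38 (Hc)
open scoped ContDiff

namespace AD19

open ZQ38

variable {ι : Type} [Fintype ι] [DecidableEq ι] {wt p : ι → ℤ} {Q : Matrix ι ι ℚ}
  {m n : Submodule ℚ (Matrix ι ι ℚ)} {Ψ : ℂ → Matrix ι ι ℂ} {c : Par wt p} {t z : ℂ} {ρ : ℝ}

theorem N7_congr {r : ℕ} {w : ℤ} {K : ℕ} {Q : Matrix (Fin r) (Fin r) ℝ} {Ω : Set ℂ}
    {P P' : ℂ → ℤ → Matrix (Fin r) (Fin r) ℂ} {θ θ' : ℂ → Matrix (Fin r) (Fin r) ℂ}
    {e e' : ℂ → Fin r → ℂ} (hΩ : IsOpen Ω) (h : ZW67.ExtE w K Q Ω P θ e)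
    (hP : ∀ z ∈ Ω, P z = P' z) (hθ : ∀ z ∈ Ω, θ z = θ' z) (he : ∀ z ∈ Ω, e z = e' z) :
    ZW67.ExtE w K Q Ω P' θ' e' := by
  have eP : ∀ z ∈ Ω, ∀ᶠ x in 𝓝 z, P x = P' x := fun z hz => by
    filter_upwards [hΩ.mem_nhds hz] with x hx
    exact hP x hx
  have ee : ∀ z ∈ Ω, ∀ᶠ x in 𝓝 z, e x = e' x := fun z hz => by
    filter_upwards [hΩ.mem_nhds hz] with x hx
    exact he x hx
  refine ⟨⟨fun z hz => hP z hz ▸ h.pv.hd z hz, fun a i j => ?_, fun i j => ?_,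
    fun z hz a => ?_, fun z hz a => ?_, fun z hz => ?_⟩, fun i => ?_, fun z hz a ha => ?_,
    fun z hz a ha => ?_⟩
  · exact (h.pv.sm a i j).congr fun z hz => by
      show P' z a i j = P z a i j
      rw [hP z hz]
  · exact (h.pv.smθ i j).congr fun z hz => by
      show θ' z i j = θ z i j
      rw [hθ z hz]
  · rw [← hθ z hz, ← hP z hz, ← h.pv.der z hz a]
    exact SP38.DZ_congr ((eP z hz).mono fun x hx => by rw [hx])
  · rw [← hθ z hz, ← hP z hz]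
    exact h.pv.deg z hz a
  · rw [← hθ z hz]
    exact h.pv.skew z hz
  · exact (h.sme i).congr fun z hz => by
      show e' z i = e z i
      rw [he z hz]
  · rw [← hP z hz, ← ZW67.DVb_congr (ee z hz)]
    exact h.d0 z hz a ha
  · rw [← hP z hz, ← ZW67.DV_congr (ee z hz)]
    exact h.d1 z hz a ha

theorem disc_mem (hρ : 0 < ρ) (hv : VE wt p Q (Metric.ball t ρ) Ψ) (hlie : IsLie m)
    (htri : ∀ B ∈ m, MW38.Tri wt B) (hm : ∀ z ∈ Metric.ball t ρ, mtLie wt p (Ψ z) ≤ m)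
    (hn : n ≤ m ⊓ Low ℚ wt) (hty : ∀ z ∈ Metric.ball t ρ, TyOK wt p m n (Ψ z))
    (P : Pk wt Q m n) :
    ZW67.Mem P.d.w (2 * c.K) P.QW (fun τ => Dp c P (Ψ (cay t ρ τ)))
      (fun τ => ep c P (Ψ (cay t ρ τ))) :=
  mem1 (VE.pull hρ hv) hlie htri (fun z hz => hm _ ((cay_facts t hρ).1 z hz).1) hn
    (fun z hz => hty _ ((cay_facts t hρ).1 z hz).1) P

theorem disc_ext (hρ : 0 < ρ) (hv : VE wt p Q (Metric.ball t ρ) Ψ) (hlie : IsLie m)
    (htri : ∀ B ∈ m, MW38.Tri wt B) (hm : ∀ z ∈ Metric.ball t ρ, mtLie wt p (Ψ z) ≤ m)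
    (hn : n ≤ m ⊓ Low ℚ wt) (hty : ∀ z ∈ Metric.ball t ρ, TyOK wt p m n (Ψ z))
    (P : Pk wt Q m n) :
    ZW67.ExtE P.d.w (2 * c.K) P.QW (Metric.ball t ρ)
      (fun z a => ZW67.LP (2 * c.K) (Dp c P (Ψ z)) a) (SP38.DZ (fun z => Dp c P (Ψ z)))
      (fun z => ep c P (Ψ z)) := by
  obtain ⟨-, hc2, -, hc4⟩ := cay_facts t hρ
  have hM := disc_mem (c := c) hρ hv hlie htri hm hn hty P
  have hopen : IsOpen (Hc 0) := SP38.isOpen_Hc 0
  refine N7_congr Metric.isOpen_ball (ExtE_comp hM.toE hopen Metric.isOpen_ball hc4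
    fun z hz => (hc2 z hz).1) (fun z hz => ?_) (fun z hz => ?_) (fun z hz => ?_)
  · show (fun a => ZW67.LP (2 * c.K) (Dp c P (Ψ (cay t ρ (cai t ρ z)))) a) = _
    rw [(hc2 z hz).2]
  · show deriv (cai t ρ) z • SP38.DZ (fun τ => Dp c P (Ψ (cay t ρ τ))) (cai t ρ z) = _
    have h1 := US38.Inv2_DZ_comp hopen (F := fun τ => Dp c P (Ψ (cay t ρ τ))) hM.gd.sm
      (hc2 z hz).1 (hc4.differentiableAt (Metric.isOpen_ball.mem_nhds hz))
    rw [← h1]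
    refine SP38.DZ_congr ?_
    filter_upwards [Metric.isOpen_ball.mem_nhds hz] with x hx
    rw [(hc2 x hx).2]
  · show ep c P (Ψ (cay t ρ (cai t ρ z))) = _
    rw [(hc2 z hz).2]

/-- the local conclusions at a point of an open set -/
theorem disc_pt {D : Set ℂ} (hD : IsOpen D) (hv : VE wt p Q D Ψ) (hlie : IsLie m)
    (htri : ∀ B ∈ m, MW38.Tri wt B) (hm : ∀ z ∈ D, mtLie wt p (Ψ z) ≤ m)
    (hn : n ≤ m ⊓ Low ℚ wt) (hty : ∀ z ∈ D, TyOK wt p m n (Ψ z))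
    (P : Pk wt Q m n) (hw : P.d.w ≤ -3) (hz : z ∈ D) :
    0 ≤ Ef c P Ψ z ∧ ContDiffAt ℝ ∞ (fun z => Tf c P Ψ z) z ∧
    ‖Tf c P Ψ z‖ ≤ √(Ef c P Ψ z) * Nf c P (Ψ z) ∧
    ∀ ε : ℝ, 0 < ε → -(2 * Ef c P Ψ z) ≤
      US38.rho (US38.jj (fun z => ((Nf c P (Ψ z) : ℝ) : ℂ)) (fun z => Tf c P Ψ z) ε) z := by
  obtain ⟨ρ, hρ, hball⟩ := Metric.isOpen_iff.1 hD z hz
  have hzb : z ∈ Metric.ball z ρ := Metric.mem_ball_self hρ
  have hE := (disc_ext (c := c) hρ ⟨fun v hv' => hv.mhs v (hball hv'),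
    fun i j v hv' => hv.an i j v (hball hv'), fun v hv' => hv.tr v (hball hv')⟩ hlie htri
    (fun z hz => hm z (hball hz)) hn (fun z hz => hty z (hball hz)) P).toD Metric.isOpen_ball hw
  have hN : ∀ x ∈ Metric.ball z ρ, US38.NN P.d.w (2 * c.K) P.QW
      (fun z a => ZW67.LP (2 * c.K) (Dp c P (Ψ z)) a) (fun z => US38.imv (ep c P (Ψ z))) x =
      ((Nf c P (Ψ x) : ℝ) : ℂ) := fun x hx => by
    rw [← (Nf_eq (hv.mhs x (hball hx)) hlie htri (hm x (hball hx)) P).2.2]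
    unfold ZW67.NM US38.NN US38.del
    rfl
  refine ⟨SP38.hs_nonneg (hE.pv.hd z hzb).posDef _, ?_, ?_, fun ε hε => ?_⟩
  · exact (ContDiffOn.contDiffAt (hE.sm_TT Metric.isOpen_ball) (Metric.isOpen_ball.mem_nhds hzb))
  · have h1 := hE.TT_le hzb
    rw [hN z hzb, Complex.ofReal_re] at h1
    exact h1
  · refine (hE.rho_ge Metric.isOpen_ball hw hε hzb).trans (le_of_eq ?_)
    unfold US38.rho
    refine congrArg (fun t : ℂ => 2 * t.re) (SP38.dzb_congr ?_)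
    filter_upwards [Metric.isOpen_ball.mem_nhds hzb] with x hx
    have h2 : SP38.dz (US38.NN P.d.w (2 * c.K) P.QW
        (fun z a => ZW67.LP (2 * c.K) (Dp c P (Ψ z)) a) (fun z => US38.imv (ep c P (Ψ z)))) x =
        SP38.dz (fun z => ((Nf c P (Ψ z) : ℝ) : ℂ)) x := by
      refine SP38.dz_congr ?_
      filter_upwards [Metric.isOpen_ball.mem_nhds hx] with y hy
      exact hN y hy
    unfold US38.jj
    rw [h2, hN x hx]
    rfl

end AD19
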