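import Pool.Agent.LibAD19.N7

/-!
Row N8: along a disc the zeros are isolated or the function vanishes identically.

PLAN. disc_mem gives `hM : Mem`. If FlatE: RealAt at every point of Hc 0 (ZW67.FlatE, RealAt), so
NM = 0 there (Mem.NM_zero_iff), so Nf c P (Ψ z) = 0 on the ball (z = cay (cai z), Nf_eq). Otherwise
w ≤ -3 by Mem.flat_of_weight (w ≥ -2 gives flat), and `ZW67.isolated hM` gives: for z₀ ∈ Hc 0,
∀ᶠ z in 𝓝[≠] z₀, ¬ RealAt; transport by cay (a homeomorphism: `cai` is continuous at z, injective)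
to z ∈ ball. disc_dich' (open set D, near one point): take a small ball.
-/

open Matrix Complex Filter Topology
open UpperHalfPlane hiding I
open SP38 (Hc)
open scoped ContDiff

namespace AD19

open ZQ38

variable {ι : Type} [Fintype ι] [DecidableEq ι] {wt p : ι → ℤ} {Q : Matrix ι ι ℚ}
  {m n : Submodule ℚ (Matrix ι ι ℚ)} {Ψ : ℂ → Matrix ι ι ℂ} {c : Par wt p} {t z : ℂ} {ρ : ℝ}

private theorem N8_NM {r : ℕ} (w : ℤ) (K : ℕ) (Q : Matrix (Fin r) (Fin r) ℝ)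
    (D : ℂ → Matrix (Fin r) (Fin r) ℂ) (e : ℂ → Fin r → ℂ) (τ : ℂ) :
    ZW67.NM w K Q D e τ = ZW67.NM w K Q (fun _ => D τ) (fun _ => e τ) 0 := rfl

private theorem N8_key (hρ : 0 < ρ) (hv : VE wt p Q (Metric.ball t ρ) Ψ) (hlie : IsLie m)
    (htri : ∀ B ∈ m, MW38.Tri wt B) (hm : ∀ z ∈ Metric.ball t ρ, mtLie wt p (Ψ z) ≤ m)
    (P : Pk wt Q m n)
    (hM : ZW67.Mem P.d.w (2 * c.K) P.QW (fun τ => Dp c P (Ψ (cay t ρ τ)))
      (fun τ => ep c P (Ψ (cay t ρ τ)))) (hz : z ∈ Metric.ball t ρ) :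
    Nf c P (Ψ z) = 0 ↔ ZW67.RealAt (2 * c.K) (fun τ => Dp c P (Ψ (cay t ρ τ)))
      (fun τ => ep c P (Ψ (cay t ρ τ))) (cai t ρ z) := by
  obtain ⟨h1, h2⟩ := (cay_facts t hρ).2.1 z hz
  rw [← hM.NM_zero_iff h1]
  rw [N8_NM, h2, (Nf_eq (hv.mhs z hz) hlie htri (hm z hz) P).2.2, Complex.ofReal_eq_zero]

theorem disc_dich (hρ : 0 < ρ) (hv : VE wt p Q (Metric.ball t ρ) Ψ) (hlie : IsLie m)
    (htri : ∀ B ∈ m, MW38.Tri wt B) (hm : ∀ z ∈ Metric.ball t ρ, mtLie wt p (Ψ z) ≤ m)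
    (hn : n ≤ m ⊓ Low ℚ wt) (hty : ∀ z ∈ Metric.ball t ρ, TyOK wt p m n (Ψ z))
    (P : Pk wt Q m n) :
    (ZW67.FlatE (2 * c.K) (fun τ => Dp c P (Ψ (cay t ρ τ))) (fun τ => ep c P (Ψ (cay t ρ τ))) ∧
      ∀ z ∈ Metric.ball t ρ, Nf c P (Ψ z) = 0) ∨
    (P.d.w ≤ -3 ∧ ∀ z ∈ Metric.ball t ρ, ∀ᶠ z' in 𝓝[≠] z, Nf c P (Ψ z') ≠ 0) := by
  have hM := disc_mem (c := c) hρ hv hlie htri hm hn hty P
  obtain ⟨hc1, hc2, hc3, hc4⟩ := cay_facts t hρ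
  by_cases hflat : ZW67.FlatE (2 * c.K) (fun τ => Dp c P (Ψ (cay t ρ τ)))
      (fun τ => ep c P (Ψ (cay t ρ τ)))
  · refine Or.inl ⟨hflat, fun z hz => ?_⟩
    rw [N8_key hρ hv hlie htri hm P hM hz]
    obtain ⟨x, hx⟩ := hflat
    exact ⟨x, hx _ (hc2 z hz).1⟩
  · refine Or.inr ⟨?_, fun z hz => ?_⟩
    · by_contra hw
      exact hflat (hM.flat_of_weight (by omega))
    · have h1 := ZW67.isolated hM hflat (z₀ := cai t ρ z) (hc2 z hz).1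
      have hball : ∀ᶠ z' in 𝓝[≠] z, z' ∈ Metric.ball t ρ :=
        eventually_nhdsWithin_of_eventually_nhds (Metric.isOpen_ball.mem_nhds hz)
      have hcont : ContinuousAt (cai t ρ) z :=
        (hc4.differentiableAt (Metric.isOpen_ball.mem_nhds hz)).continuousAt
      have htend : Tendsto (cai t ρ) (𝓝[≠] z) (𝓝[≠] (cai t ρ z)) := by
        refine tendsto_nhdsWithin_iff.2 ⟨hcont.mono_left nhdsWithin_le_nhds, ?_⟩
        filter_upwards [hball, self_mem_nhdsWithin] with z' h2 h3 h4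
        apply h3
        have h5 := (hc2 z' h2).2
        rw [Set.mem_singleton_iff] at h4
        rw [h4, (hc2 z hz).2] at h5
        exact h5.symm
      filter_upwards [hball, htend.eventually h1] with z' h2 h3 h4
      exact h3 ((N8_key hρ hv hlie htri hm P hM h2).1 h4)

theorem disc_dich' {D : Set ℂ} (hD : IsOpen D) (hv : VE wt p Q D Ψ) (hlie : IsLie m)
    (htri : ∀ B ∈ m, MW38.Tri wt B) (hm : ∀ z ∈ D, mtLie wt p (Ψ z) ≤ m)
    (hn : n ≤ m ⊓ Low ℚ wt) (hty : ∀ z ∈ D, TyOK wt p m n (Ψ z)) (P : Pk wt Q m n)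
    (hz : z ∈ D) :
    (∀ᶠ z' in 𝓝 z, Nf c P (Ψ z') = 0) ∨
    (P.d.w ≤ -3 ∧ ∀ᶠ z' in 𝓝[≠] z, Nf c P (Ψ z') ≠ 0) := by
  obtain ⟨ρ, hρ, hsub⟩ := Metric.isOpen_iff.1 hD z hz
  have hv' : VE wt p Q (Metric.ball z ρ) Ψ :=
    ⟨fun v h => hv.mhs v (hsub h), fun i j v h => hv.an i j v (hsub h),
      fun v h => hv.tr v (hsub h)⟩
  rcases disc_dich (c := c) hρ hv' hlie htri (fun z h => hm z (hsub h)) hn
    (fun z h => hty z (hsub h)) P with h | h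
  · refine Or.inl ?_
    filter_upwards [Metric.ball_mem_nhds z hρ] with z' h'
    exact h.2 z' h'
  · exact Or.inr ⟨h.1, h.2 z (Metric.mem_ball_self hρ)⟩

end AD19
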