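import Pool.Agent.LibAD19.N8

/-!
Row N9: a special point is a zero of `Nf`, and `Nf` does not vanish identically near it.

PLAN. special_zero: pointwise. `ZL19`/`asm_t` (Pool/Agent/LibZQ38/Asm2.lean) at one point: the Lie
algebra `m' := mtLie wt p A` contains a rational `t` with `dgR wt t = diag wt` and
`Y - t ∈ cx (m' ⊓ Low)` (apply `(C8_del hP hh).exists_t` to the constant functions `fun _ => A`; or
`ZL19.Del.exists_t` for the constant family). So Y - t ∈ cx n, and (asm_val, pointwise: kerC, lamC_rat)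
`ep c P A = ofR ..`, the imaginary part `imv` of it is 0, Nf = 0 by Nf_eq.

special_flat: on a disc with `genLie = m`, if mtLie (Ψ z) ⊓ Low ≤ n at one point, the extension is
not flat: `asm_flat` (Pool/Agent/LibZQ38/Asm.lean) for `fun τ => Ψ (cay t ρ τ)`, with
h := fun τ => hh c (Ψ (cay t ρ τ)) and K := c.K; t from asm_t at τ = cai t ρ z.
-/

open Matrix Complex Filter Topology
open UpperHalfPlane hiding I
open SP38 (Hc)
open scoped ContDiff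

namespace AD19

open ZQ38

variable {ι : Type} [Fintype ι] [DecidableEq ι] {wt p : ι → ℤ} {Q : Matrix ι ι ℚ}
  {m n : Submodule ℚ (Matrix ι ι ℚ)} {Ψ : ℂ → Matrix ι ι ℂ} {c : Par wt p} {t z : ℂ} {ρ : ℝ}
  {A : Matrix ι ι ℂ}

theorem special_zero (hA : MW38.MHS wt p (Q.map (algebraMap ℚ ℝ)) A) (hlie : IsLie m)
    (htri : ∀ B ∈ m, MW38.Tri wt B) (hm : mtLie wt p A ≤ m) (hn : n ≤ m ⊓ Low ℚ wt)
    (P : Pk wt Q m n) (hs : mtLie wt p A ⊓ Low ℚ wt ≤ n) : Nf c P A = 0 := by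
  obtain ⟨hP, hh', h1, h2⟩ := pt_op (c := c) hA hm
  have hI : (I : ℂ) ∈ Hc 0 := by
    show (0 : ℝ) < I.im
    simp
  obtain ⟨t, -, -, hmem⟩ := asm_t (Φ := fun _ => A) (P := fun _ => PPg wt p c.s A)
    (h := fun _ => hh c A) (τ := ⟨I, hI⟩) (fun _ _ => hP) (fun _ _ => hh')
    (fun a => An.const (PPg wt p c.s A a)) (An.const (hh c A)) hs
  have hQ : QuD wt c.K (fun _ => PPg wt p c.s A) (fun _ => hh c A) m n P.t₀ P.d.w P.d.r
      P.d.lam P.d.rho :=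
    ⟨hlie, htri, P.mem, P.dgt, fun _ _ => h1, fun _ _ => h2, P.d.wd⟩
  have h3 : ep c P A = SP38.ofR fun i => ((P.d.lam (t - P.t₀) i : ℚ) : ℝ) :=
    asm_val (z := I) hn hQ hmem
  rw [(Nf_eq hA hlie htri hm P).1, h3]
  have h4 : US38.imv (SP38.ofR fun i => ((P.d.lam (t - P.t₀) i : ℚ) : ℝ)) = 0 := by
    funext i
    simp [US38.imv, SP38.ofR]
  rw [h4, Matrix.mulVec_zero]
  simp [SP38.qf]

theorem special_flat (hρ : 0 < ρ) (hv : VE wt p Q (Metric.ball t ρ) Ψ)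
    (hg : genLie wt p (fun τ => Ψ (cay t ρ τ)) = m) (hn : MaxSt m (m ⊓ Low ℚ wt) n)
    (P : Pk wt Q m n) (hz : z ∈ Metric.ball t ρ) (hs : mtLie wt p (Ψ z) ⊓ Low ℚ wt ≤ n)
    (hf : ZW67.FlatE (2 * c.K) (fun τ => Dp c P (Ψ (cay t ρ τ)))
      (fun τ => ep c P (Ψ (cay t ρ τ)))) : False := by
  subst hg
  obtain ⟨hc1, hc2, hc3, -⟩ := cay_facts t hρ
  have hΩ : IsOpen (Hc 0) := isOpen_lt continuous_const Complex.continuous_im
  have hv' := VE.pull hρ hv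
  have hVE : VE wt p Q (Hc 0) (fun τ => Ψ (cay t ρ τ)) :=
    VE.comp hv Metric.isOpen_ball (hc3.analyticOnNhd hΩ) fun τ hτ => (hc1 τ hτ).1
  have hh' : ∀ z ∈ Hc 0, DelH wt p (Ψ (cay t ρ z)) (PPg wt p c.s (Ψ (cay t ρ z)))
      (hh c (Ψ (cay t ρ z))) := fun z hz =>
    (pt_op (c := c) (hv'.mhs z hz) le_rfl).2.1
  have hha : An (Hc 0) (fun τ => hh c (Ψ (cay t ρ τ))) := VE.anh hVE
  have hO := asm_OpD hv' c.hs c.hK hh' hha
  obtain ⟨hlie, htri, hop⟩ := C8_lie hO.gr hO.del hO.anP hO.anh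
  have hQ : QuD wt c.K (fun τ => PPg wt p c.s (Ψ (cay t ρ τ)))
      (fun τ => hh c (Ψ (cay t ρ τ))) (genLie wt p fun τ => Ψ (cay t ρ τ)) n P.t₀ P.d.w P.d.r
      P.d.lam P.d.rho :=
    ⟨hlie, htri, P.mem, P.dgt, fun z hz => (hop z hz).1, fun z hz => (hop z hz).2, P.d.wd⟩
  obtain ⟨hz1, hz2⟩ := hc2 z hz
  have hs' : mtLie wt p (Ψ (cay t ρ (cai t ρ z))) ⊓ Low ℚ wt ≤ n := by
    rw [hz2]
    exact hs
  obtain ⟨t', ht, ht', hmem⟩ := asm_t (τ := ⟨cai t ρ z, hz1⟩) hO.gr hO.del hO.anP hO.anh hs'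
  exact asm_flat hv' c.hs c.hK hh' hha P.d.jd.neg (asm_maxI.1 hn) hQ ht ht' hmem hf

end AD19
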