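import Pool.Agent.LibAD19.N9
import Pool.Agent.LibAD19.G1

/-!
Row N9b: near a special point `Nf` does not vanish identically (in `E`).

PLAN. Suppose Nf = 0 near v₀. Take ξ from gLie_disc; Ψ z = Φ (v₀ + z • ξ) on ball 0 2;
genLie (Ψ ∘ cay 0 2) = gLie Φ v₀ =: m. Hypotheses of disc_dich for Ψ on ball 0 2 (mtLie ≤ m and
TyOK on the ball by hty, IsLie, Tri by gLie_facts): the second alternative contradicts Nf (Ψ z) = 0
near z = 0 (continuity of z ↦ v₀ + z • ξ; `𝓝[≠] 0` in ℂ is nontrivial); in the first alternative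
special_flat with z = 0 gives False.
-/

open Matrix Complex Filter Topology
open UpperHalfPlane hiding I
open MW38 (dg)
open SP38 (Hc)
open scoped ContDiff

namespace AD19

open ZQ38

variable {ι : Type} [Fintype ι] [DecidableEq ι] {E : Type} [NormedAddCommGroup E]
  [NormedSpace ℂ E] [CompleteSpace E] {wt p : ι → ℤ} {Q : Matrix ι ι ℚ}
  {n : Submodule ℚ (Matrix ι ι ℚ)} {Φ : E → Matrix ι ι ℂ} {c : Par wt p} {v₀ : E} {r : ℝ}

theorem special_ne (hr : 0 < r) (hv : VE wt p Q (Metric.ball v₀ r) Φ)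
    (hn : MaxSt (gLie wt p Φ v₀) (gLie wt p Φ v₀ ⊓ Low ℚ wt) n)
    (hty : ∀ v ∈ Metric.ball v₀ r, TyOK wt p (gLie wt p Φ v₀) n (Φ v))
    (P : Pk wt Q (gLie wt p Φ v₀) n) (hs : mtLie wt p (Φ v₀) ⊓ Low ℚ wt ≤ n) :
    ¬ ∀ᶠ v in 𝓝 v₀, Nf c P (Φ v) = 0 := by
  intro h
  obtain ⟨hm, -, -, hlie, htri⟩ := gLie_facts c Metric.isOpen_ball
    (convex_ball v₀ r).isPreconnected hv (Metric.mem_ball_self hr)
  obtain ⟨ξ, hξ, hvΨ, hgen⟩ := gLie_disc c hr hv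
  have h0 : (0 : ℂ) ∈ Metric.ball (0 : ℂ) 2 := Metric.mem_ball_self (by norm_num)
  have hz0 : Φ (v₀ + (0 : ℂ) • ξ) = Φ v₀ := by rw [zero_smul, add_zero]
  rcases disc_dich (c := c) (t := 0) (ρ := 2) (Ψ := fun z => Φ (v₀ + z • ξ)) (by norm_num) hvΨ
    hlie htri (fun z hz => hm _ (hξ z hz)) hn.le (fun z hz => hty _ (hξ z hz)) P with
    ⟨hflat, -⟩ | ⟨-, h2⟩
  · refine special_flat (c := c) (t := 0) (ρ := 2) (z := 0) (Ψ := fun z => Φ (v₀ + z • ξ))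
      (by norm_num) hvΨ hgen hn P h0 ?_ hflat
    show mtLie wt p (Φ (v₀ + (0 : ℂ) • ξ)) ⊓ Low ℚ wt ≤ n
    rw [hz0]
    exact hs
  · have h3 := h2 0 h0
    have hcont : Tendsto (fun z : ℂ => v₀ + z • ξ) (𝓝 0) (𝓝 v₀) := by
      have h4 : ContinuousAt (fun z : ℂ => v₀ + z • ξ) 0 := by fun_prop
      have h5 := h4.tendsto
      simp only [zero_smul, add_zero] at h5
      exact h5
    have h5 := (hcont.eventually h).filter_mono (nhdsWithin_le_nhds (s := {(0 : ℂ)}ᶜ))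
    obtain ⟨z, hz⟩ := (h3.and h5).exists
    exact hz.1 hz.2

omit [NormedAddCommGroup E] [NormedSpace ℂ E] [CompleteSpace E] in
private theorem N9b_gr (c : Par wt p) {v : E}
    (hA : MW38.MHS wt p (Q.map (algebraMap ℚ ℝ)) (Φ v)) :
    (mtLie wt p (Φ v)).map (ZL19.grL wt) = mtLie wt p (dg wt (Φ v)) := by
  have hP := exists_GrP hA c.hs c.hK
  ext M
  rw [mtLie_gr hP (HH_delH hP c.hJ)]
  rfl

/-- the generic Lie algebra of the graded pieces -/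
private theorem N9b_gLie (c : Par wt p) (hr : 0 < r) (hv : VE wt p Q (Metric.ball v₀ r) Φ) :
    gLie wt p (fun v => dg wt (Φ v)) v₀ = (gLie wt p Φ v₀).map (ZL19.grL wt) ∧
      ∃ v₁ ∈ Metric.ball v₀ r, mtLie wt p (Φ v₁) = gLie wt p Φ v₀ := by
  obtain ⟨hm, -, hres, -, -⟩ := gLie_facts c Metric.isOpen_ball
    (convex_ball v₀ r).isPreconnected hv (Metric.mem_ball_self hr)
  have hex : ∀ U ∈ 𝓝 v₀, ∃ v₁ ∈ Metric.ball v₀ r, v₁ ∈ U ∧
      mtLie wt p (Φ v₁) = gLie wt p Φ v₀ := by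
    intro U hU
    obtain ⟨W, hW1, hW2, hW3⟩ := mem_nhds_iff.1 hU
    have hd : Dense {v : E | v ∈ Metric.ball v₀ r → mtLie wt p (Φ v) = gLie wt p Φ v₀} :=
      dense_of_mem_residual hres
    obtain ⟨v, hv1, hv2⟩ := hd.inter_open_nonempty (W ∩ Metric.ball v₀ r)
      (hW2.inter Metric.isOpen_ball) ⟨v₀, hW3, Metric.mem_ball_self hr⟩
    exact ⟨v, hv1.2, hW1 hv1.1, hv2 hv1.2⟩
  refine ⟨le_antisymm ?_ ?_, ?_⟩
  · unfold gLie
    refine (iInf₂_le (Metric.ball v₀ r) (Metric.ball_mem_nhds v₀ hr)).trans ?_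
    refine iSup₂_le fun v hvb => ?_
    rw [← N9b_gr c (hv.mhs v hvb)]
    exact Submodule.map_mono (hm v hvb)
  · refine le_iInf₂ fun U hU => ?_
    obtain ⟨v₁, h1, h2, h3⟩ := hex U hU
    rw [← h3, N9b_gr c (hv.mhs v₁ h1)]
    exact le_iSup₂ (f := fun v (_ : v ∈ U) => mtLie wt p (dg wt (Φ v))) v₁ h2
  · obtain ⟨v₁, h1, -, h3⟩ := hex Set.univ Filter.univ_mem
    exact ⟨v₁, h1, h3⟩

/-- a point of the Hodge locus which is not in the Hodge locus of the graded pieces -/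
theorem hl_point (c : Par wt p) (hr : 0 < r) (hv : VE wt p Q (Metric.ball v₀ r) Φ)
    (h1 : mtLie wt p (Φ v₀) ≠ gLie wt p Φ v₀)
    (h2 : mtLie wt p (dg wt (Φ v₀)) = gLie wt p (fun v => dg wt (Φ v)) v₀) :
    ∃ n, MaxSt (gLie wt p Φ v₀) (gLie wt p Φ v₀ ⊓ Low ℚ wt) n ∧
      mtLie wt p (Φ v₀) ⊓ Low ℚ wt ≤ n := by
  classical
  obtain ⟨hm, -, -, -, -⟩ := gLie_facts c Metric.isOpen_ball
    (convex_ball v₀ r).isPreconnected hv (Metric.mem_ball_self hr)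
  obtain ⟨hg1, v₁, hv₁, hg2⟩ := N9b_gLie c hr hv
  have hv₀ : v₀ ∈ Metric.ball v₀ r := Metric.mem_ball_self hr
  rw [hg1, ← N9b_gr c (hv.mhs v₀ hv₀)] at h2
  -- the family of two points
  set Ψ : ℂ → Matrix ι ι ℂ := fun z => if z = 0 then Φ v₀ else Φ v₁ with hΨ
  have hΨ0 : Ψ 0 = Φ v₀ := if_pos rfl
  have hΨ1 : Ψ 1 = Φ v₁ := if_neg one_ne_zero
  have hmhs : ∀ z, MW38.MHS wt p (Q.map (algebraMap ℚ ℝ)) (Ψ z) := by
    intro z
    by_cases hz : z = 0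
    · rw [hz, hΨ0]
      exact hv.mhs v₀ hv₀
    · rw [hΨ]
      simp only [if_neg hz]
      exact hv.mhs v₁ hv₁
  have hP : ∀ z ∈ (Set.univ : Set ℂ), GrP wt p c.K (Ψ z) (PPg wt p c.s (Ψ z)) :=
    fun z _ => exists_GrP (hmhs z) c.hs c.hK
  have hD' : ∀ z ∈ (Set.univ : Set ℂ), DelH wt p (Ψ z) (PPg wt p c.s (Ψ z)) (hh c (Ψ z)) :=
    fun z hz => HH_delH (hP z hz) c.hJ
  have hmax : ∀ z ∈ (Set.univ : Set ℂ), mtLie wt p (Ψ z) ≤ mtLie wt p (Ψ 1) := by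
    intro z _
    rw [hΨ1, hg2]
    by_cases hz : z = 0
    · rw [hz, hΨ0]
      exact hm v₀ hv₀
    · rw [hΨ]
      simp only [if_neg hz]
      exact hm v₁ hv₁
  have hD := ZL19.del_opp hP hD'
  have hg := ZL19.gen_eq_mtLie hP hD' (Set.mem_univ (1 : ℂ)) hmax
  have hmt0 := ZL19.mt_eq_mtLie hP hD' ⟨0, Set.mem_univ (0 : ℂ)⟩
  simp only [hΨ1, hg2] at hg
  simp only [hΨ0] at hmt0
  have e1 : (ZL19.mt (ZL19.opp c.K Set.univ (fun z => PPg wt p c.s (Ψ z)) fun z => hh c (Ψ z))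
      (ZL19.opq wt c.K Set.univ (fun z => PPg wt p c.s (Ψ z)) fun z => hh c (Ψ z))
      ⟨0, Set.mem_univ (0 : ℂ)⟩).map (ZL19.grL wt) =
      (ZL19.gen (ZL19.opp c.K Set.univ (fun z => PPg wt p c.s (Ψ z)) fun z => hh c (Ψ z))
      (ZL19.opq wt c.K Set.univ (fun z => PPg wt p c.s (Ψ z)) fun z => hh c (Ψ z))).map
        (ZL19.grL wt) := by
    rw [hmt0, hg, h2]
  have e2 : ZL19.uu wt (ZL19.mt
      (ZL19.opp c.K Set.univ (fun z => PPg wt p c.s (Ψ z)) fun z => hh c (Ψ z))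
      (ZL19.opq wt c.K Set.univ (fun z => PPg wt p c.s (Ψ z)) fun z => hh c (Ψ z))
      ⟨0, Set.mem_univ (0 : ℂ)⟩) ≠
      ZL19.uu wt (ZL19.gen
      (ZL19.opp c.K Set.univ (fun z => PPg wt p c.s (Ψ z)) fun z => hh c (Ψ z))
      (ZL19.opq wt c.K Set.univ (fun z => PPg wt p c.s (Ψ z)) fun z => hh c (Ψ z))) := by
    intro he
    apply h1
    have h3 := hD.mt_eq e1 he
    rwa [hmt0, hg] at h3
  obtain ⟨N, hN, hN'⟩ := hD.core e2
  have hN'' := hD.MaxI_gen e1 hN'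
  rw [ZL19.uu_eq, hg] at hN''
  rw [ZL19.uu_eq, hmt0] at hN
  exact ⟨N, asm_maxI.2 hN'', hN⟩

end AD19
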